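import Pool.Agent.Helper35.UQ.CELL
import Pool.Agent.Helper1.T1.Goals2
import Pool.Agent.Helper97.Tate.All

/-! Project T1, packet AFF: unimodular maps. -/

set_option autoImplicit false

noncomputable section

namespace Pool.Agent.Helper35.T1.AFF

open Pool.Agent.Helper97
open Pool.Agent.Helper98.UN Pool.Agent.Helper1.T1
open Pool.Agent.Helper35.T1.CLU (ch)
open Pool.Agent.Helper35.UQ.CELL (aux2)

/-- products of binomial coefficients of two affine forms -/
theorem aff (hSPN : Tate.S_SPN) (m : ℕ) (S : Finset (ℤ × ℤ)) (a : ℤ × ℤ → ℚ)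
    (p1 q1 c1 p2 q2 c2 : ℤ)
    (h : ∀ α β : ℕ, α + β < m →
      ∑ q ∈ S, a q * (((Ring.choose q.1 β : ℤ) : ℚ) * ((Ring.choose q.2 α : ℤ) : ℚ)) = 0)
    (α β : ℕ) (hαβ : α + β < m) :
    ∑ q ∈ S, a q * (((Ring.choose (p1 * q.1 + q1 * q.2 + c1) β : ℤ) : ℚ) *
      ((Ring.choose (p2 * q.1 + q2 * q.2 + c2) α : ℤ) : ℚ)) = 0 := by
  have h1 := hSPN m S a h (((List.range β).map fun i : ℕ => (p1, q1, c1 - (i : ℤ))) ++
    ((List.range α).map fun i : ℕ => (p2, q2, c2 - (i : ℤ)))) (by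
      rw [List.length_append, List.length_map, List.length_map, List.length_range,
        List.length_range]
      omega)
  have e0 : ∀ (q : ℤ × ℤ) (x y z : ℤ) (r : ℕ),
      (((List.range r).map fun i : ℕ => (x, y, z - (i : ℤ))).map fun c =>
        ((c.1 * q.1 + c.2.1 * q.2 + c.2.2 : ℤ) : ℚ)).prod =
        (r.factorial : ℚ) * ((Ring.choose (x * q.1 + y * q.2 + z) r : ℤ) : ℚ) := by
    intro q x y z r
    have h3 := congrArg (fun z : ℤ => (z : ℚ)) (ch r (x * q.1 + y * q.2 + z))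
    push_cast at h3
    rw [h3, List.map_map, Finset.prod_range]
    rw [← List.prod_ofFn]
    congr 1
    rw [List.ofFn_eq_map, ← List.map_coe_finRange_eq_range, List.map_map]
    apply List.map_congr_left
    intro i _
    simp only [Function.comp_apply]
    push_cast
    ring
  have h2 : ∀ q ∈ S, a q * ((((List.range β).map fun i : ℕ => (p1, q1, c1 - (i : ℤ))) ++
      ((List.range α).map fun i : ℕ => (p2, q2, c2 - (i : ℤ)))).map fun c =>
        ((c.1 * q.1 + c.2.1 * q.2 + c.2.2 : ℤ) : ℚ)).prod =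
      ((β.factorial : ℚ) * (α.factorial : ℚ)) *
        (a q * (((Ring.choose (p1 * q.1 + q1 * q.2 + c1) β : ℤ) : ℚ) *
        ((Ring.choose (p2 * q.1 + q2 * q.2 + c2) α : ℤ) : ℚ))) := by
    intro q _
    rw [List.map_append, List.prod_append, e0, e0]
    ring
  rw [Finset.sum_congr rfl h2, ← Finset.mul_sum] at h1
  rcases mul_eq_zero.1 h1 with h3 | h3
  · exfalso
    rcases mul_eq_zero.1 h3 with h4 | h4
    · exact Nat.factorial_ne_zero β (by exact_mod_cast h4)
    · exact Nat.factorial_ne_zero α (by exact_mod_cast h4)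
  · exact h3

theorem t : S_AFF := by
  classical
  intro N M u w p q a b c S hdet hu hw hS h
  obtain ⟨f, hf⟩ : ∃ f : ℕ × ℤ → ℕ × ℤ,
      f = fun s => ((a * s.1 + b * s.2 + c).toNat, q * s.1 - p * s.2) := ⟨_, rfl⟩
  have hf1 : ∀ s ∈ S, (((f s).1 : ℕ) : ℤ) = a * s.1 + b * s.2 + c := by
    intro s hs
    rw [hf]
    exact Int.toNat_of_nonneg (hS s hs)
  have hf2 : ∀ s, (f s).2 = q * s.1 - p * s.2 := by
    intro s
    rw [hf]
  -- the inverse map
  have hinv1 : ∀ s ∈ S, p * (((f s).1 : ℕ) : ℤ) + b * (f s).2 - p * c = s.1 := by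
    intro s hs
    rw [hf1 s hs, hf2]
    linear_combination (s.1 : ℤ) * hdet
  have hinv2 : ∀ s ∈ S, q * (((f s).1 : ℕ) : ℤ) - a * (f s).2 - q * c = s.2 := by
    intro s hs
    rw [hf1 s hs, hf2]
    linear_combination (s.2 : ℤ) * hdet
  have hinj : Set.InjOn f (S : Set (ℕ × ℤ)) := by
    intro x hx y hy hxy
    have h1 := hinv1 x hx
    have h2 := hinv2 x hx
    rw [hxy] at h1 h2
    apply Prod.ext
    · have := h1.symm.trans (hinv1 y hy)
      exact_mod_cast this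
    · exact h2.symm.trans (hinv2 y hy)
  have himg : (S.image fun s => ((a * s.1 + b * s.2 + c).toNat, q * s.1 - p * s.2)) = S.image f := by
    rw [hf]
  rw [himg] at h
  intro A hA
  -- the transported coefficients
  obtain ⟨g, hg⟩ : ∃ g : ℕ × ℤ → ℚ, g = fun s' =>
      A ((p * ((s'.1 : ℕ) : ℤ) + b * s'.2 - p * c).toNat, q * ((s'.1 : ℕ) : ℤ) - a * s'.2 - q * c) :=
    ⟨_, rfl⟩
  have hgf : ∀ s ∈ S, g (f s) = A s := by
    intro s hs
    rw [hg]
    simp only
    rw [hinv1 s hs, hinv2 s hs, Int.toNat_natCast]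
  have hres := h g ?_
  · intro s hs
    rw [← hgf s hs]
    exact hres (f s) (Finset.mem_image_of_mem f hs)
  · intro l α β hαβ
    rw [Finset.sum_image hinj]
    have hu0 : u l ≠ 0 := (hu l).ne'
    have hw0 : w l ≠ 0 := (hw l).ne'
    obtain ⟨X, hX⟩ : ∃ X : ℚ, X = u l ^ (-p) * w l ^ b := ⟨_, rfl⟩
    obtain ⟨Y, hY⟩ : ∃ Y : ℚ, Y = u l ^ q * w l ^ a := ⟨_, rfl⟩
    have hX0 : X ≠ 0 := by
      rw [hX]
      exact mul_ne_zero (zpow_ne_zero _ hu0) (zpow_ne_zero _ hw0)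
    have hY0 : Y ≠ 0 := by
      rw [hY]
      exact mul_ne_zero (zpow_ne_zero _ hu0) (zpow_ne_zero _ hw0)
    have hinjZ : Set.InjOn (fun s : ℕ × ℤ => ((s.1 : ℤ), s.2)) (S : Set (ℕ × ℤ)) := by
      intro x _ y _ hxy
      simp only [Prod.mk.injEq, Nat.cast_inj] at hxy
      exact Prod.ext hxy.1 hxy.2
    obtain ⟨a', ha'⟩ : ∃ a' : ℤ × ℤ → ℚ, ∀ j : ℕ, ∀ k : ℤ, a' ((j : ℤ), k) = A (j, k) *
      (Y ^ j * X ^ k) := ⟨fun s => A (s.1.toNat, s.2) * (Y ^ s.1.toNat * X ^ s.2),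
        fun j k => by simp⟩
    have h1 := aff Pool.Agent.Helper97.Tate.all_SPN (M l)
      (S.image fun s : ℕ × ℤ => ((s.1 : ℤ), s.2)) a' a b c q (-p) 0
      (by
        intro α' β' h'
        rw [Finset.sum_image hinjZ]
        have h2 := hA l α' β' h'
        rw [← mul_zero (Y ^ β'), ← h2, Finset.mul_sum]
        apply Finset.sum_congr rfl
        intro s _
        rw [ha', Ring.choose_natCast]
        have h3 := aux2 Y s.1 β'
        simp only
        rw [← hX, ← hY]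
        push_cast
        calc A (s.1, s.2) * (Y ^ s.1 * X ^ s.2) *
              (((s.1.choose β' : ℕ) : ℚ) * ((Ring.choose s.2 α' : ℤ) : ℚ))
            = A s * ((Ring.choose s.2 α' : ℤ) : ℚ) * X ^ s.2 *
              (((s.1.choose β' : ℕ) : ℚ) * Y ^ s.1) := by ring
          _ = _ := by
            rw [h3]
            ring) α β hαβ
    rw [Finset.sum_image hinjZ] at h1
    have h6 : w l ^ β * (w l ^ c)⁻¹ ≠ 0 :=
      mul_ne_zero (pow_ne_zero _ hw0) (inv_ne_zero (zpow_ne_zero _ hw0))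
    have h7 : w l ^ β * (w l ^ c)⁻¹ * ∑ s ∈ S, g (f s) *
        ((((f s).1.choose β : ℕ) : ℚ) * w l ^ ((f s).1 - β) *
          (((Ring.choose (f s).2 α : ℤ) : ℚ) * u l ^ (f s).2)) = 0 := by
      rw [← h1, Finset.mul_sum]
      apply Finset.sum_congr rfl
      intro s hs
      rw [hgf s hs, ha']
      have h3 := aux2 (w l) (f s).1 β
      have h4 : Y ^ s.1 * X ^ s.2 = (w l ^ c)⁻¹ * (w l ^ (f s).1 * u l ^ (f s).2) := by
        rw [← zpow_natCast (w l) (f s).1, hf1 s hs, hf2, hX, hY, ← zpow_natCast, mul_zpow,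
          mul_zpow, ← zpow_mul, ← zpow_mul, ← zpow_mul, ← zpow_mul]
        have e1 : w l ^ (a * (s.1 : ℤ) + b * s.2 + c) =
            w l ^ (a * (s.1 : ℤ)) * w l ^ (b * s.2) * w l ^ c := by
          rw [zpow_add₀ hw0, zpow_add₀ hw0]
        have e2 : u l ^ (q * (s.1 : ℤ) - p * s.2) = u l ^ (q * (s.1 : ℤ)) * u l ^ (-p * s.2) := by
          rw [← zpow_add₀ hu0]
          congr 1
          ring
        rw [e1, e2]
        have e3 : w l ^ c ≠ 0 := zpow_ne_zero _ hw0
        field_simp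
      have h5 : (a * (s.1 : ℤ) + b * s.2 + c) = (((f s).1 : ℕ) : ℤ) := (hf1 s hs).symm
      have h8 : (q * (s.1 : ℤ) + -p * s.2 + 0) = (f s).2 := by
        rw [hf2]
        ring
      rw [h4]
      simp only
      rw [h5, h8, Ring.choose_natCast]
      push_cast
      calc w l ^ β * (w l ^ c)⁻¹ * (A s * ((((f s).1.choose β : ℕ) : ℚ) * w l ^ ((f s).1 - β) *
            (((Ring.choose (f s).2 α : ℤ) : ℚ) * u l ^ (f s).2)))
          = (w l ^ β * ((((f s).1.choose β : ℕ) : ℚ) * w l ^ ((f s).1 - β))) * ((w l ^ c)⁻¹ *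
            A s * ((Ring.choose (f s).2 α : ℤ) : ℚ) * u l ^ (f s).2) := by ring
        _ = _ := by
          rw [← h3]
          ring
    rcases mul_eq_zero.1 h7 with h8 | h8
    · exact absurd h8 h6
    · exact h8

end Pool.Agent.Helper35.T1.AFF
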