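import Pool.Agent.Helper35.T1.CELL
import Pool.Agent.Helper1.T1.Goals3

/-! Project T1, packet CELLC: one cell, the wedge closed on one side, chords in the direction `(p, q)` with
`p α < q` (strictly; for `q = p α` the statement is false). -/

set_option autoImplicit false

noncomputable section

namespace Pool.Agent.Helper35.T1.CELLC

open Pool.Agent.Helper97.Nag Pool.Agent.Helper98.UN Pool.Agent.Helper1.All Pool.Agent.Helper1.T1
open Pool.Agent.Helper35.UQ.CELL (dg_ite)
open Pool.Agent.Helper35.Nag.TRN (card_le spread)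
open Pool.Agent.Helper35.T1.CELL (indep_sub)

/-- the count of the chords; `J = p j' + g X` is the level of the point `(j', X)` -/
theorem count (t al be p q B R : ℝ) (g : ℤ → ℝ) (ht : 0 < t) (hp : 0 < p) (hE : 0 < al + be)
    (hbe : 0 < be) (hq0 : 0 ≤ q) (hq : p * al < q)
    (h9 : (al + be) * R ≤ (q + p * be) ^ 2) (hd : (q + p * be) * t ≤ B) (S : Finset (ℕ × ℤ))
    (hS : ∀ s ∈ S, 0 ≤ p * (s.1 : ℝ) + g s.2 ∧
      ((p * (s.1 : ℝ) + g s.2 < t ∧ (q + p * be) * (p * (s.1 : ℝ) + g s.2) < s.2 + p * be * t ∧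
        (s.2 : ℝ) - p * al * t ≤ (q - p * al) * (p * (s.1 : ℝ) + g s.2)) ∨
        (p * (s.1 : ℝ) + g s.2 = t ∧ (s.2 : ℝ) = q * t))) (i : ℕ) :
    nr S (i + 1) ≤ ⌈B - i * R⌉₊ := by
  have hc : 0 < q + p * be := by
    have := mul_pos hp hbe
    linarith
  obtain rfl | hi := Nat.eq_zero_or_pos i
  · have e0 : B - ((0 : ℕ) : ℝ) * R = B := by
      rw [Nat.cast_zero, zero_mul, sub_zero]
    rw [e0]
    have hle : B ≤ (⌈B⌉₊ : ℝ) := Nat.le_ceil B
    have hsub : ((S.image Prod.snd).filter fun X => 0 + 1 ≤ rl S X) ⊆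
        Finset.Ioc (⌊q * t⌋ - (⌈B⌉₊ : ℤ)) ⌊q * t⌋ := by
      intro X hX
      rw [Finset.mem_filter, Finset.mem_image] at hX
      obtain ⟨⟨s, hs, rfl⟩, -⟩ := hX
      obtain ⟨hJ, hor⟩ := hS s hs
      have hlow : -(p * be * t) < (s.2 : ℝ) := by
        rcases hor with ⟨h1, h2, h3⟩ | ⟨h1, h2⟩
        · have : 0 ≤ (q + p * be) * (p * (s.1 : ℝ) + g s.2) := mul_nonneg hc.le hJ
          linarith
        · rw [h2]
          have : 0 < (q + p * be) * t := mul_pos hc ht
          linarith
      have hup : (s.2 : ℝ) ≤ q * t := by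
        rcases hor with ⟨h1, h2, h3⟩ | ⟨h1, h2⟩
        · have : (q - p * al) * (p * (s.1 : ℝ) + g s.2) ≤ (q - p * al) * t :=
            mul_le_mul_of_nonneg_left h1.le (by linarith)
          linarith
        · exact h2.le
      rw [Finset.mem_Ioc]
      constructor
      · have h5 : ((⌊q * t⌋ - (⌈B⌉₊ : ℤ) : ℤ) : ℝ) < (s.2 : ℝ) := by
          push_cast
          have := Int.floor_le (q * t)
          linarith
        exact_mod_cast h5
      · exact Int.le_floor.mpr hup
    calc nr S (0 + 1) ≤ (Finset.Ioc (⌊q * t⌋ - (⌈B⌉₊ : ℤ)) ⌊q * t⌋).card :=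
          Finset.card_le_card hsub
      _ = ⌈B⌉₊ := by
        rw [Int.card_Ioc, sub_sub_cancel, Int.toNat_natCast]
  · have hi' : (1 : ℝ) ≤ i := by exact_mod_cast hi
    apply card_le (a := p * i * (q + p * be) - p * be * t)
      (c := q * t - i * (q - p * al) * (q + p * be) / (al + be))
    · intro X hX
      rw [Finset.mem_filter, Finset.mem_image] at hX
      obtain ⟨-, hcard⟩ := hX
      unfold rl at hcard
      have hinj : Set.InjOn (fun q : ℕ × ℤ => (q.1 : ℤ)) (S.filter fun q => q.2 = X) := by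
        intro x hx y hy hxy
        rw [Finset.mem_coe, Finset.mem_filter] at hx hy
        simp only [Nat.cast_inj] at hxy
        exact Prod.ext hxy (hx.2.trans hy.2.symm)
      have hcard' : i + 1 ≤ ((S.filter fun q => q.2 = X).image
          (fun q : ℕ × ℤ => (q.1 : ℤ))).card := by
        rw [Finset.card_image_of_injOn hinj]
        exact hcard
      obtain ⟨x, hx, y, hy, hxy⟩ := spread hcard'
      rw [Finset.mem_image] at hx hy
      obtain ⟨x, hx, rfl⟩ := hx
      obtain ⟨y, hy, rfl⟩ := hy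
      rw [Finset.mem_filter] at hx hy
      obtain ⟨hxS, hxX⟩ := hx
      obtain ⟨hyS, hyX⟩ := hy
      have hIx := hS x hxS
      have hIy := hS y hyS
      rw [hxX] at hIx
      rw [hyX] at hIy
      have hxy' : (x.1 : ℝ) + i ≤ y.1 := by exact_mod_cast hxy
      obtain ⟨J1, hJ1⟩ : ∃ J1 : ℝ, J1 = p * (x.1 : ℝ) + g X := ⟨_, rfl⟩
      obtain ⟨J2, hJ2⟩ : ∃ J2 : ℝ, J2 = p * (y.1 : ℝ) + g X := ⟨_, rfl⟩
      rw [← hJ1] at hIx
      rw [← hJ2] at hIy
      have hJJ : J1 + p * i ≤ J2 := by
        have := mul_le_mul_of_nonneg_left hxy' hp.le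
        rw [hJ1, hJ2]
        linarith
      have hpi : 0 < p * i := mul_pos hp (by linarith)
      have hJ2t : J2 ≤ t := by
        rcases hIy.2 with ⟨h3, -, -⟩ | ⟨h3, -⟩
        · exact h3.le
        · exact h3.le
      have hx3 : (X : ℝ) - p * al * t ≤ (q - p * al) * J1 := by
        rcases hIx.2 with ⟨-, -, h3⟩ | ⟨h3, -⟩
        · exact h3
        · exfalso
          linarith
      have hqa : 0 < q - p * al := by linarith
      have hy2 : (q + p * be) * J2 < X + p * be * t := by
        rcases hIy.2 with ⟨-, h3, -⟩ | ⟨-, h4⟩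
        · exact h3
        · exfalso
          rw [h4] at hx3
          have h5 : (q - p * al) * J1 < (q - p * al) * t :=
            mul_lt_mul_of_pos_left (by linarith) hqa
          linarith
      have h6 : (q + p * be) * (J1 + p * i) ≤ (q + p * be) * J2 :=
        mul_le_mul_of_nonneg_left hJJ hc.le
      have h7 : 0 ≤ (q + p * be) * J1 := mul_nonneg hc.le hIx.1
      constructor
      · linarith
      · have h9' : (q + p * be) * ((X : ℝ) - p * al * t) ≤ (q + p * be) * ((q - p * al) * J1) :=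
          mul_le_mul_of_nonneg_left hx3 hc.le
        have h10 : (q - p * al) * ((q + p * be) * J1) <
            (q - p * al) * (X + p * be * t - (q + p * be) * (p * i)) := by
          apply mul_lt_mul_of_pos_left _ hqa
          linarith
        have h11 : p * ((al + be) * (X : ℝ)) < p * ((al + be) * (q * t) -
            i * (q - p * al) * (q + p * be)) := by
          nlinarith
        have h12 : (al + be) * (X : ℝ) < (al + be) * (q * t) -
            i * (q - p * al) * (q + p * be) := lt_of_mul_lt_mul_left h11 hp.le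
        rw [lt_sub_iff_add_lt, ← lt_sub_iff_add_lt', div_lt_iff₀ hE]
        linarith
    · refine le_trans ?_ (Nat.le_ceil _)
      have hi0 : (0 : ℝ) ≤ i := Nat.cast_nonneg i
      have e1 : R ≤ (q + p * be) ^ 2 / (al + be) := by
        rw [le_div_iff₀ hE]
        linarith
      have e2 : q * t - i * (q - p * al) * (q + p * be) / (al + be) -
          (p * i * (q + p * be) - p * be * t) =
          (q + p * be) * t - i * ((q + p * be) ^ 2 / (al + be)) := by
        field_simp
        ring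
      rw [e2]
      have e3 : (i : ℝ) * R ≤ i * ((q + p * be) ^ 2 / (al + be)) :=
        mul_le_mul_of_nonneg_left e1 hi0
      linarith

/-- the lattice points of the half closed wedge are finitely many -/
theorem wedgec_fin (k d : ℕ) (α β : ℝ) (hk : 1 ≤ k) (hα : 0 < α) (hβ : 0 < β) :
    ∃ U : Finset (ℕ × ℤ), ∀ q : ℕ × ℤ, q ∈ U ↔ InWc k d α β q.1 q.2 := by
  classical
  refine ⟨((Finset.range (d + 1)) ×ˢ (Finset.Icc (-⌈α * d⌉) ⌈β * d⌉)).filter
    (fun q => InWc k d α β q.1 q.2), fun q => ?_⟩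
  rw [Finset.mem_filter]
  constructor
  · exact fun h => h.2
  · intro h
    refine ⟨?_, h⟩
    rw [Finset.mem_product, Finset.mem_range, Finset.mem_Icc]
    have hj : q.1 ≤ k * q.1 := Nat.le_mul_of_pos_left _ hk
    have hk' : (1 : ℝ) ≤ k := by exact_mod_cast hk
    have hd0 : (0 : ℝ) ≤ d := Nat.cast_nonneg d
    have hdk : (d : ℝ) / k ≤ d := div_le_self hd0 hk'
    have hj0 : (0 : ℝ) ≤ q.1 := Nat.cast_nonneg _
    have ha1 := Int.le_ceil (α * d)
    have hb1 := Int.le_ceil (β * d)
    have ha0 : 0 ≤ α * d := mul_nonneg hα.le hd0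
    have hb0 : 0 ≤ β * d := mul_nonneg hβ.le hd0
    have ha2 : α * ((d : ℝ) / k - q.1) ≤ α * d := mul_le_mul_of_nonneg_left (by linarith) hα.le
    have hb2 : β * ((d : ℝ) / k - q.1) ≤ β * d := mul_le_mul_of_nonneg_left (by linarith) hβ.le
    rcases h with ⟨h1, h2, h3⟩ | ⟨h1, h2⟩
    · refine ⟨by omega, ?_, ?_⟩
      · have h4 : (((-⌈α * d⌉ : ℤ)) : ℝ) ≤ (q.2 : ℝ) := by
          push_cast
          linarith
        exact_mod_cast h4
      · have h4 : (q.2 : ℝ) ≤ ((⌈β * d⌉ : ℤ) : ℝ) := by linarith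
        exact_mod_cast h4
    · rw [h2]
      refine ⟨by omega, ?_, ?_⟩
      · have h4 : (((-⌈α * d⌉ : ℤ)) : ℝ) ≤ ((0 : ℤ) : ℝ) := by
          push_cast
          linarith
        exact_mod_cast h4
      · have h4 : ((0 : ℤ) : ℝ) ≤ ((⌈β * d⌉ : ℤ) : ℝ) := by
          push_cast
          linarith
        exact_mod_cast h4

theorem t (hAFF : S_AFF) : S_CELLC := by
  classical
  intro n m A lam H W V k d al be p q hD hH hW hl hk hd hal0 hbe0 hp hpq h1 hae h2
  obtain ⟨U, hU⟩ := wedgec_fin k d al be hk hal0 hbe0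
  -- Bezout
  obtain ⟨x, y, hxy⟩ : ∃ x y : ℤ, x * p + y * q = 1 := by
    refine ⟨Nat.gcdA p q, Nat.gcdB p q, ?_⟩
    have h3 := Nat.gcd_eq_gcd_ab p q
    rw [Nat.coprime_iff_gcd_eq_one.1 hpq] at h3
    push_cast at h3
    linarith
  obtain ⟨c, hc⟩ : ∃ c : ℤ, ∀ s ∈ U, 0 ≤ x * s.1 + y * s.2 + c := by
    refine ⟨∑ s ∈ U, |x * s.1 + y * s.2|, fun s hs => ?_⟩
    have h3 : |x * s.1 + y * s.2| ≤ ∑ s ∈ U, |x * (s.1 : ℤ) + y * s.2| :=
      Finset.single_le_sum (f := fun s : ℕ × ℤ => |x * (s.1 : ℤ) + y * s.2|)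
        (fun _ _ => abs_nonneg _) hs
    have h4 := neg_abs_le (x * (s.1 : ℤ) + y * s.2)
    linarith
  obtain ⟨t, ht⟩ : ∃ t : ℝ, t = (d : ℝ) / k := ⟨_, rfl⟩
  rw [← ht] at h1
  have hk' : (0 : ℝ) < k := by exact_mod_cast hk
  have hd' : (0 : ℝ) < d := by exact_mod_cast hd
  have hp' : (0 : ℝ) < p := by exact_mod_cast hp
  have hq' : (0 : ℝ) ≤ q := Nat.cast_nonneg q
  have ht0 : 0 < t := by
    rw [ht]
    positivity
  have hN : ∀ s, nr (U.image fun s => ((x * s.1 + y * s.2 + c).toNat, q * s.1 - p * s.2))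
      (s + 1) ≤ lam s := by
    intro s
    refine (count t al be p q V (W / H) (fun X => y * X - p * c) ht0 hp' (by linarith) hbe0 hq' hae
      ?_ h1 _ ?_ s).trans ?_
    · rw [mul_comm]
      exact h2
    · intro s' hs'
      rw [Finset.mem_image] at hs'
      obtain ⟨s, hs, rfl⟩ := hs'
      have hc' := hc s hs
      have e1 : (((x * s.1 + y * s.2 + c).toNat : ℕ) : ℝ) = x * s.1 + y * s.2 + c := by
        have h3 : (((x * s.1 + y * s.2 + c).toNat : ℕ) : ℤ) = x * s.1 + y * s.2 + c :=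
          Int.toNat_of_nonneg hc'
        exact_mod_cast h3
      have hxy' : (x : ℝ) * p + y * q = 1 := by exact_mod_cast hxy
      have e2 : (p : ℝ) * (((x * s.1 + y * s.2 + c).toNat : ℕ) : ℝ) +
          (y * ((q * s.1 - p * s.2 : ℤ) : ℝ) - p * c) = s.1 := by
        rw [e1]
        push_cast
        linear_combination (s.1 : ℝ) * hxy'
      simp only
      rw [e2]
      refine ⟨Nat.cast_nonneg _, ?_⟩
      rcases (hU s).1 hs with ⟨h6, h7, h8⟩ | ⟨h6, h7⟩
      · left
        have h6' : (k : ℝ) * s.1 < d := by exact_mod_cast h6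
        rw [← ht] at h7 h8
        have h10 : -(s.2 : ℝ) ≤ al * (t - s.1) := by linarith
        have h11 := mul_lt_mul_of_pos_left h7 hp'
        have h12 := mul_le_mul_of_nonneg_left h10 hp'.le
        refine ⟨?_, ?_, ?_⟩
        · rw [ht, lt_div_iff₀ hk']
          linarith
        · push_cast
          linarith
        · push_cast
          linarith
      · right
        have h6' : (k : ℝ) * s.1 = d := by exact_mod_cast h6
        have h9 : (s.1 : ℝ) = t := by
          rw [ht, eq_div_iff hk'.ne']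
          linarith
        refine ⟨h9, ?_⟩
        rw [h7]
        push_cast
        rw [← h9]
        ring
    · by_contra hcon
      have h5 : (lam s : ℝ) < V - s * (W / H) := Nat.lt_ceil.1 (not_le.1 hcon)
      apply lt_irrefl (lam s)
      apply hl
      have h6 : (lam s : ℝ) * H < (V - s * (W / H)) * H := mul_lt_mul_of_pos_right h5 hH
      have h7 : (V - s * (W / H)) * H = V * H - W * s := by
        field_simp
      linarith
  obtain ⟨u, v, hu, hv, hI⟩ := FIN.emp _ A lam (dg_ite hD A subset_rfl) _ hN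
  have hI' := hAFF n _ u v p q x y c U hxy hu hv hc hI
  exact ⟨_, _, fun i => mul_pos (zpow_pos (hu i) _) (zpow_pos (hv i) _),
    fun i => mul_pos (zpow_pos (hu i) _) (zpow_pos (hv i) _),
    fun S hS => indep_sub (fun s hs => (hU s).2 (hS s hs)) hI'⟩

end Pool.Agent.Helper35.T1.CELLC
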