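import Pool.Agent.Helper35.T1.CELL
import Pool.Agent.Helper1.T1.Goals5

/-! Project T1, packet REGP: one cell, regular side, chords in the direction `(p, q)`. -/

set_option autoImplicit false

noncomputable section

namespace Pool.Agent.Helper35.T1.REGP

open Pool.Agent.Helper97.Nag Pool.Agent.Helper98.UN Pool.Agent.Helper1.All Pool.Agent.Helper1.T1
open Pool.Agent.Helper35.UQ.CELL (dg_ite)

/-- the first point of a line right of `L` -/
theorem line (p q x y : ℤ) (hp : 0 < p) (hxy : x * p + y * q = 1) (X : ℤ) (L : ℝ)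
    (hL : -1 ≤ L) :
    ∃ (j : ℕ) (n : ℤ), q * j - p * n = X ∧ L < j ∧ (j : ℝ) ≤ L + p := by
  obtain ⟨k0, hk0⟩ : ∃ k0 : ℤ, k0 = ⌊L⌋ + 1 := ⟨_, rfl⟩
  have h1 : 0 ≤ k0 := by
    have : (-1 : ℤ) ≤ ⌊L⌋ := Int.le_floor.2 (by push_cast; exact hL)
    omega
  obtain ⟨r, hr⟩ : ∃ r : ℤ, r = (y * X - k0) % p := ⟨_, rfl⟩
  obtain ⟨Z, hZ⟩ : ∃ Z : ℤ, Z = (y * X - k0) / p := ⟨_, rfl⟩
  have h2 : 0 ≤ r := by rw [hr]; exact Int.emod_nonneg _ hp.ne'
  have h3 : r < p := by rw [hr]; exact Int.emod_lt_of_pos _ hp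
  have h4 : r + p * Z = y * X - k0 := by
    rw [hr, hZ]
    exact Int.emod_add_mul_ediv _ _
  have h5 : (((k0 + r).toNat : ℕ) : ℤ) = k0 + r := Int.toNat_of_nonneg (by omega)
  have h6 : (((k0 + r).toNat : ℕ) : ℝ) = k0 + r := by exact_mod_cast h5
  refine ⟨(k0 + r).toNat, -(x * X) - q * Z, ?_, ?_, ?_⟩
  · rw [h5]
    linear_combination q * h4 + X * hxy
  · rw [h6, hk0]
    have h7 := Int.lt_floor_add_one L
    have h8 : (0 : ℝ) ≤ r := by exact_mod_cast h2
    push_cast
    linarith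
  · rw [h6, hk0]
    have h7 := Int.floor_le L
    have h8 : (r : ℝ) + 1 ≤ p := by exact_mod_cast h3
    push_cast
    linarith

/-- the count of the chords, from below -/
theorem cnt (t al be : ℝ) (p q x y c : ℤ) (hp : 0 < p) (hxy : x * p + y * q = 1)
    (hal : 0 < al) (hbe : 0 < be) (hq : p * al < q) (U : Finset (ℕ × ℤ))
    (hU : ∀ (j : ℕ) (n : ℤ), (n : ℝ) < be * (t - j) → -(n : ℝ) < al * (t - j) → (j, n) ∈ U)
    (hc : ∀ s ∈ U, 0 ≤ x * s.1 + y * s.2 + c) (s N : ℕ) (hs : 1 ≤ s)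
    (hN : (N : ℝ) < (q + p * be) * (t + 1) - s * (q + p * be) ^ 2 / (al + be)) :
    N ≤ nr (U.image fun s => ((x * s.1 + y * s.2 + c).toNat, q * s.1 - p * s.2)) s := by
  classical
  have hp' : (0 : ℝ) < p := by exact_mod_cast hp
  have hE : 0 < al + be := by linarith
  have hqa : 0 < (q : ℝ) - p * al := by linarith
  have hcc : 0 < (q : ℝ) + p * be := by
    have := mul_pos hp' hbe
    have := mul_pos hp' hal
    linarith
  obtain ⟨A, hA⟩ : ∃ A : ℝ, A = (p * s - 1) * (q + p * be) - p * be * t := ⟨_, rfl⟩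
  obtain ⟨B, hB⟩ : ∃ B : ℝ, B = q * t - s * (q - p * al) * (q + p * be) / (al + be) := ⟨_, rfl⟩
  have hlen : B - A = (q + p * be) * (t + 1) - s * (q + p * be) ^ 2 / (al + be) := by
    rw [hA, hB]
    field_simp
    ring
  have hcard : N ≤ (Finset.Ioo ⌊A⌋ ⌈B⌉).card := by
    rw [Int.card_Ioo]
    have h1 := Int.floor_le A
    have h2 := Int.le_ceil B
    have h3 : ((N : ℤ) : ℝ) < ((⌈B⌉ - ⌊A⌋ : ℤ) : ℝ) := by
      push_cast
      linarith
    have h4 : (N : ℤ) < ⌈B⌉ - ⌊A⌋ := by exact_mod_cast h3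
    omega
  refine hcard.trans ?_
  unfold nr
  apply Finset.card_le_card
  intro X hX
  rw [Finset.mem_Ioo, Int.floor_lt, Int.lt_ceil] at hX
  obtain ⟨hX1, hX2⟩ := hX
  -- the end points of the line
  obtain ⟨I, hI⟩ : ∃ I : ℝ, I = (X - p * al * t) / (q - p * al) := ⟨_, rfl⟩
  obtain ⟨J, hJ⟩ : ∃ J : ℝ, J = (X + p * be * t) / (q + p * be) := ⟨_, rfl⟩
  obtain ⟨L, hL1, hL2, hL3⟩ : ∃ L : ℝ, -1 ≤ L ∧ (∀ j : ℕ, L < j → I < j) ∧ L + p * s < J := by
    rcases lt_or_ge I 0 with h | h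
    · refine ⟨-1, le_rfl, fun j _ => lt_of_lt_of_le h (Nat.cast_nonneg j), ?_⟩
      rw [hJ, lt_div_iff₀ hcc]
      rw [hA] at hX1
      linarith
    · refine ⟨I, by linarith, fun j hj => hj, ?_⟩
      have h1 : J - I = p * ((al + be) * (q * t - X)) / ((q + p * be) * (q - p * al)) := by
        rw [hI, hJ]
        field_simp
        ring
      have h2 : p * s < J - I := by
        rw [h1, lt_div_iff₀ (mul_pos hcc hqa)]
        have h3 : s * (q - p * al) * (q + p * be) / (al + be) < q * t - X := by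
          rw [hB] at hX2
          linarith
        rw [div_lt_iff₀ hE] at h3
        have h4 := mul_lt_mul_of_pos_left h3 hp'
        linarith
      linarith
  obtain ⟨j, n, h1, h2, h3⟩ := line p q x y hp hxy X L hL1
  have h1' : (q : ℝ) * j - p * n = X := by exact_mod_cast h1
  have hin : ∀ i < s, (j + i * p.toNat, n + i * q) ∈ U := by
    intro i hi
    have hpn : ((p.toNat : ℕ) : ℝ) = p := by
      have : ((p.toNat : ℕ) : ℤ) = p := Int.toNat_of_nonneg hp.le
      exact_mod_cast this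
    have e1 : (((j + i * p.toNat : ℕ)) : ℝ) = j + i * p := by
      push_cast [hpn]
      rfl
    have hi' : (i : ℝ) + 1 ≤ s := by exact_mod_cast hi
    have hi0 : (0 : ℝ) ≤ i := Nat.cast_nonneg i
    have h4 : (j : ℝ) + i * p < J := by
      have := mul_le_mul_of_nonneg_left hi' hp'.le
      linarith
    have h5 : I < (j : ℝ) + i * p := by
      have := hL2 j h2
      have := mul_nonneg hi0 hp'.le
      linarith
    rw [hJ, lt_div_iff₀ hcc] at h4
    rw [hI, div_lt_iff₀ hqa] at h5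
    apply hU
    · rw [e1]
      push_cast
      apply lt_of_mul_lt_mul_left _ hp'.le
      linarith
    · rw [e1]
      push_cast
      apply lt_of_mul_lt_mul_left _ hp'.le
      linarith
  have hpn : ((p.toNat : ℕ) : ℤ) = p := Int.toNat_of_nonneg hp.le
  have hval : ∀ i < s, (((x * ((j + i * p.toNat : ℕ) : ℤ) + y * (n + i * q) + c).toNat : ℕ) : ℤ) =
      x * j + y * n + c + i := by
    intro i hi
    rw [Int.toNat_of_nonneg (hc _ (hin i hi))]
    push_cast [hpn]
    linear_combination (i : ℤ) * hxy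
  have hline : ∀ i : ℕ, q * ((j + i * p.toNat : ℕ) : ℤ) - p * (n + i * q) = X := by
    intro i
    push_cast [hpn]
    linear_combination h1
  have hsub : (Finset.range s).image (fun i : ℕ =>
      ((x * ((j + i * p.toNat : ℕ) : ℤ) + y * (n + i * q) + c).toNat, X)) ⊆
      (U.image fun s => ((x * s.1 + y * s.2 + c).toNat, q * s.1 - p * s.2)).filter
        fun q => q.2 = X := by
    intro z hz
    rw [Finset.mem_image] at hz
    obtain ⟨i, hi, rfl⟩ := hz
    rw [Finset.mem_range] at hi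
    rw [Finset.mem_filter]
    refine ⟨?_, rfl⟩
    rw [Finset.mem_image]
    exact ⟨_, hin i hi, Prod.ext rfl (hline i)⟩
  have hcs : s ≤ ((U.image fun s => ((x * s.1 + y * s.2 + c).toNat, q * s.1 - p * s.2)).filter
        fun q => q.2 = X).card := by
    refine le_trans (le_of_eq ?_) (Finset.card_le_card hsub)
    rw [Finset.card_image_of_injOn, Finset.card_range]
    intro i hi i' hi' hii
    rw [Finset.mem_coe, Finset.mem_range] at hi hi'
    simp only [Prod.mk.injEq, and_true] at hii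
    have e1 := hval i hi
    have e2 := hval i' hi'
    rw [hii, e2] at e1
    omega
  rw [Finset.mem_filter]
  refine ⟨?_, hcs⟩
  have h6 : 0 < ((U.image fun s => ((x * s.1 + y * s.2 + c).toNat, q * s.1 - p * s.2)).filter
        fun q => q.2 = X).card := lt_of_lt_of_le hs hcs
  obtain ⟨z, hz⟩ := Finset.card_pos.1 h6
  rw [Finset.mem_filter] at hz
  rw [Finset.mem_image]
  exact ⟨z, hz.1, hz.2⟩

/-- the open wedge -/
theorem wedge_fin (k d a b T : ℕ) (hk : 1 ≤ k) (ha : 0 < a) (hb : 0 < b) :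
    ∃ U : Finset (ℕ × ℤ), ∀ q : ℕ × ℤ, q ∈ U ↔ InR k d a b T q.1 q.2 := by
  classical
  refine ⟨((Finset.range (d + 3)) ×ˢ
    (Finset.Icc (-((T : ℤ) * (d + 3))) ((T : ℤ) * (d + 3)))).filter
    (fun q => InR k d a b T q.1 q.2), fun q => ?_⟩
  rw [Finset.mem_filter]
  constructor
  · exact fun h => h.2
  · intro h
    refine ⟨?_, h⟩
    rw [Finset.mem_product, Finset.mem_range, Finset.mem_Icc]
    obtain ⟨h1, h2, h3⟩ := h
    have hj : q.1 ≤ k * q.1 := Nat.le_mul_of_pos_left _ hk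
    have hT : (T : ℤ) * ((d : ℤ) + 3 - k - k * q.1) ≤ T * (d + 3) := by
      apply mul_le_mul_of_nonneg_left _ (by positivity)
      have : (0 : ℤ) ≤ (k : ℤ) * q.1 := by positivity
      linarith
    have hka : (1 : ℤ) ≤ (k : ℤ) * a := by
      have : 1 ≤ k * a := Nat.mul_pos hk ha
      exact_mod_cast this
    have hkb : (1 : ℤ) ≤ (k : ℤ) * b := by
      have : 1 ≤ k * b := Nat.mul_pos hk hb
      exact_mod_cast this
    have hT0 : (0 : ℤ) ≤ (T : ℤ) * (d + 3) := by positivity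
    refine ⟨by omega, ?_, ?_⟩
    · by_contra hcon
      rw [not_le] at hcon
      have h4 : 0 < -q.2 := by linarith
      have h5 : -q.2 ≤ (k : ℤ) * b * (-q.2) := by nlinarith
      linarith
    · by_contra hcon
      rw [not_le] at hcon
      have h4 : 0 < q.2 := by linarith
      have h5 : q.2 ≤ (k : ℤ) * a * q.2 := by nlinarith
      linarith

theorem t (hAFF : S_AFF) : S_REGP := by
  classical
  intro n m A lam H W V k d a b T p q hD hP hH hW hWV hk ha hb hT hp hpq hq hV hHE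
  obtain ⟨U, hU⟩ := wedge_fin k d a b T hk ha hb
  -- Bezout
  obtain ⟨x, y, hxy⟩ : ∃ x y : ℤ, x * p + y * q = 1 := by
    refine ⟨Nat.gcdA p q, Nat.gcdB p q, ?_⟩
    have h3 := Nat.gcd_eq_gcd_ab p q
    rw [Nat.coprime_iff_gcd_eq_one.1 hpq] at h3
    push_cast at h3
    linarith
  obtain ⟨c, hc⟩ : ∃ c : ℤ, ∀ s ∈ U, 0 ≤ x * s.1 + y * s.2 + c := by
    refine ⟨∑ s ∈ U, |x * s.1 + y * s.2|, fun s hs => ?_⟩
    have h3 : |x * s.1 + y * s.2| ≤ ∑ s ∈ U, |x * (s.1 : ℤ) + y * s.2| :=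
      Finset.single_le_sum (f := fun s : ℕ × ℤ => |x * (s.1 : ℤ) + y * s.2|)
        (fun _ _ => abs_nonneg _) hs
    have h4 := neg_abs_le (x * (s.1 : ℤ) + y * s.2)
    linarith
  obtain ⟨al, hal⟩ : ∃ al : ℝ, al = (T : ℝ) / b := ⟨_, rfl⟩
  obtain ⟨be, hbe⟩ : ∃ be : ℝ, be = (T : ℝ) / a := ⟨_, rfl⟩
  obtain ⟨t, ht⟩ : ∃ t : ℝ, t = ((d : ℝ) + 3) / k - 1 := ⟨_, rfl⟩
  have ht1 : ((d : ℝ) + 3) / k = t + 1 := by rw [ht]; ring
  rw [← hal] at hq hHE
  rw [← hbe] at hV hHE
  rw [ht1] at hV hHE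
  have hk' : (0 : ℝ) < k := by exact_mod_cast hk
  have ha' : (0 : ℝ) < a := by exact_mod_cast ha
  have hb' : (0 : ℝ) < b := by exact_mod_cast hb
  have hT' : (0 : ℝ) < T := by exact_mod_cast hT
  have hp' : (0 : ℝ) < p := by exact_mod_cast hp
  have hal0 : 0 < al := by
    rw [hal]
    positivity
  have hbe0 : 0 < be := by
    rw [hbe]
    positivity
  have hE : 0 < al + be := by linarith
  have hcc : 0 < (q : ℝ) + p * be := by
    have := mul_pos hp' hbe0
    have := mul_pos hp' hal0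
    linarith
  have hUin : ∀ (j : ℕ) (n : ℤ), (n : ℝ) < be * (t - j) → -(n : ℝ) < al * (t - j) →
      (j, n) ∈ U := by
    intro j n h1 h2
    rw [hU]
    have h3 : 0 < (al + be) * (t - j) := by linarith
    have h4 : 0 < t - j := (mul_pos_iff_of_pos_left hE).1 h3
    have e0 : t - j = ((d : ℝ) + 3 - k - k * j) / k := by
      rw [ht]
      field_simp
    have h5 : 0 < (d : ℝ) + 3 - k - k * j := by
      rw [e0] at h4
      exact (div_pos_iff_of_pos_right hk').1 h4
    refine ⟨?_, ?_, ?_⟩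
    · have h6 : ((k * j + k : ℕ) : ℝ) < ((d + 3 : ℕ) : ℝ) := by
        push_cast
        linarith
      have h7 : k * j + k < d + 3 := by exact_mod_cast h6
      exact Nat.lt_succ_iff.1 h7
    · have h6 : (k : ℝ) * a * n < T * ((d : ℝ) + 3 - k - k * j) := by
        have e1 : be * (t - j) = T * ((d : ℝ) + 3 - k - k * j) / (k * a) := by
          rw [e0, hbe]
          field_simp
        rw [e1, lt_div_iff₀ (by positivity)] at h1
        linarith
      exact_mod_cast h6
    · have h6 : -((k : ℝ) * b * n) < T * ((d : ℝ) + 3 - k - k * j) := by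
        have e1 : al * (t - j) = T * ((d : ℝ) + 3 - k - k * j) / (k * b) := by
          rw [e0, hal]
          field_simp
        rw [e1, lt_div_iff₀ (by positivity)] at h2
        linarith
      exact_mod_cast h6
  obtain ⟨σ, hσ⟩ : ∃ σ : ℕ × ℤ → ℕ × ℤ, σ = fun s : ℕ × ℤ =>
      ((x * (s.1 : ℤ) + y * s.2 + c).toNat, (q : ℤ) * (s.1 : ℤ) - p * s.2) := ⟨_, rfl⟩
  have hN : ∀ s, lam s ≤ nr (U.image σ) (s + 1) := by
    intro s
    rcases Nat.eq_zero_or_pos (lam s) with h0 | h0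
    · rw [h0]
      exact Nat.zero_le _
    rw [hσ]
    refine cnt t al be p q x y c (by exact_mod_cast hp) hxy hal0 hbe0 (by exact_mod_cast hq) U
      hUin hc (s + 1) (lam s) (by omega) ?_
    have h1 := hP (lam s - 1) s (by omega)
    have e1 : ((lam s - 1 : ℕ) : ℝ) + 1 = lam s := by
      have : lam s - 1 + 1 = lam s := by omega
      exact_mod_cast this
    rw [e1] at h1
    have h0' : (0 : ℝ) < lam s := by exact_mod_cast h0
    have h2 : (s : ℝ) + 1 < H := by
      have h3 : 0 < (lam s : ℝ) * H := mul_pos h0' hH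
      have h4 : W * ((s : ℝ) + 1) < W * H := by linarith
      exact lt_of_mul_lt_mul_left h4 hW.le
    have hs0 : (0 : ℝ) < (s : ℝ) + 1 := by positivity
    obtain ⟨C, hC⟩ : ∃ C : ℝ, C = (q : ℝ) + p * be := ⟨_, rfl⟩
    rw [← hC] at hV hHE hcc
    have h5 : H * C / (al + be) < t + 1 := by
      rw [div_lt_iff₀ hE]
      linarith
    have h6 : (s + 1 : ℝ) * C * (H * C / (al + be)) < (s + 1) * C * (t + 1) :=
      mul_lt_mul_of_pos_left h5 (mul_pos hs0 hcc)
    have h7 : V * (H - (s + 1)) < C * (t + 1) * (H - (s + 1)) :=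
      mul_lt_mul_of_pos_right hV (by linarith)
    have h8 : W * (H - (s + 1)) ≤ V * (H - (s + 1)) :=
      mul_le_mul_of_nonneg_right hWV (by linarith)
    have h9 : H * (lam s : ℝ) < H * (C * (t + 1) - (s + 1) * C ^ 2 / (al + be)) := by
      have e2 : H * (C * (t + 1) - (s + 1) * C ^ 2 / (al + be)) =
          H * (C * (t + 1)) - (s + 1) * C * (H * C / (al + be)) := by
        field_simp
      rw [e2]
      linarith
    have h10 := lt_of_mul_lt_mul_left h9 hH.le
    push_cast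
    rw [← hC]
    exact h10
  -- the choice
  have hl := isDg_of hD
  obtain ⟨S', hS', hS''⟩ := FIN.choose (fun s => lam (s - 1))
    (fun s => hl.1 (by omega)) (U.image σ).card (U.image σ) rfl (by
      intro s hs
      have h1 := hN (s - 1)
      rw [FIN.nr_eq] at h1
      have h2 : s - 1 + 1 = s := by omega
      rwa [h2] at h1)
  have hcard : S'.card = ∑ i ∈ A, (m i + 1).choose 2 := by
    obtain ⟨B0, hB0⟩ := FIN.size m A lam hD
    obtain ⟨B, hB⟩ : ∃ B, B = max B0 S'.card := ⟨_, rfl⟩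
    rw [← hB0 B (by omega), FIN.card_eq S' B (by omega)]
    apply Finset.sum_congr rfl
    intro s _
    rw [hS'' (s + 1) (by omega)]
    rfl
  obtain ⟨u, v, hu, hv, hI⟩ := FIN.emp _ A lam (dg_ite hD A subset_rfl) S' fun s => by
    rw [FIN.nr_eq, hS'' (s + 1) (by omega)]
    exact le_rfl
  -- back
  obtain ⟨S, hS⟩ : ∃ S : Finset (ℕ × ℤ), S = U.filter fun s => σ s ∈ S' := ⟨_, rfl⟩
  have hSU : S ⊆ U := by rw [hS]; exact Finset.filter_subset _ _
  have himg : S.image σ = S' := by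
    ext z
    rw [Finset.mem_image]
    constructor
    · rintro ⟨s, hs, rfl⟩
      rw [hS, Finset.mem_filter] at hs
      exact hs.2
    · intro hz
      obtain ⟨s, hs, rfl⟩ := Finset.mem_image.1 (hS' hz)
      exact ⟨s, by rw [hS, Finset.mem_filter]; exact ⟨hs, hz⟩, rfl⟩
  have hinj : Set.InjOn σ (S : Set (ℕ × ℤ)) := by
    intro s hs s' hs' h
    have hc1 := hc s (hSU hs)
    have hc2 := hc s' (hSU hs')
    rw [hσ] at h
    simp only [Prod.mk.injEq] at h
    obtain ⟨e1, e2⟩ := h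
    have e3 : x * s.1 + y * s.2 = x * s'.1 + y * s'.2 := by omega
    apply Prod.ext
    · have e4 : (s.1 : ℤ) = s'.1 := by
        linear_combination (p : ℤ) * e3 + y * e2 + ((s'.1 : ℤ) - s.1) * hxy
      exact_mod_cast e4
    · linear_combination (q : ℤ) * e3 - x * e2 + (s'.2 - s.2) * hxy
  have hI' := hAFF n _ u v p q x y c S hxy hu hv (fun s hs => hc s (hSU hs)) (by
    rw [← hσ, himg]
    exact hI)
  refine ⟨_, _, S, fun i => mul_pos (zpow_pos (hu i) _) (zpow_pos (hv i) _),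
    fun i => mul_pos (zpow_pos (hu i) _) (zpow_pos (hv i) _), fun s hs => (hU s).1 (hSU hs), ?_,
    hI'⟩
  rw [← hcard, ← himg, Finset.card_image_of_injOn hinj]

end Pool.Agent.Helper35.T1.REGP
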