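import Pool.Agent.Helper35.UQ.CELL
import Pool.Agent.Helper1.T1.Goals

/-! Project T1, packet CELL: one cell. -/

set_option autoImplicit false

noncomputable section

namespace Pool.Agent.Helper35.T1.CELL

open Pool.Agent.Helper97.Nag Pool.Agent.Helper98.UN Pool.Agent.Helper1.All Pool.Agent.Helper1.T1
open Pool.Agent.Helper35.UQ.CELL (count dg_ite)
open Pool.Agent.Helper35.T1.CNT (InTE)

/-- subsets of independent sets -/
theorem indep_sub {b : ℕ} {M : Fin b → ℕ} {x z : Fin b → ℚ} {S T : Finset (ℕ × ℤ)}
    (hST : S ⊆ T) (h : IndepC M x z T) : IndepC M x z S := by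
  classical
  intro a ha
  have h1 := h (fun q => if q ∈ S then a q else 0) (by
    intro l α β hαβ
    refine Eq.trans ?_ (ha l α β hαβ)
    symm
    apply Finset.sum_subset_zero_on_sdiff hST
    · intro q hq
      rw [Finset.mem_sdiff] at hq
      rw [if_neg hq.2, zero_mul]
    · intro q hq
      rw [if_pos hq])
  intro q hq
  have h2 := h1 q (hST hq)
  rwa [if_pos hq] at h2

/-- the whole wedge -/
theorem wedge_fin (k d a b T : ℕ) (hk : 1 ≤ k) (ha : 0 < a) (hb : 0 < b) :
    ∃ U : Finset (ℕ × ℤ), ∀ q : ℕ × ℤ, q ∈ U ↔ InW k d a b T q.1 q.2 := by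
  classical
  refine ⟨((Finset.range (d + 1)) ×ˢ (Finset.Icc (-((T : ℤ) * d)) ((T : ℤ) * d))).filter
    (fun q => InW k d a b T q.1 q.2), fun q => ?_⟩
  rw [Finset.mem_filter]
  constructor
  · exact fun h => h.2
  · intro h
    refine ⟨?_, h⟩
    rw [Finset.mem_product, Finset.mem_range, Finset.mem_Icc]
    rcases h with ⟨h1, h2, h3⟩ | ⟨h1, h2⟩
    · have hj : q.1 ≤ k * q.1 := Nat.le_mul_of_pos_left _ hk
      have hT : (T : ℤ) * ((d : ℤ) - k * q.1) ≤ T * d := by
        apply mul_le_mul_of_nonneg_left _ (by positivity)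
        have : (0 : ℤ) ≤ (k : ℤ) * q.1 := by positivity
        linarith
      have hka : (1 : ℤ) ≤ (k : ℤ) * a := by
        have : 1 ≤ k * a := Nat.mul_pos hk ha
        exact_mod_cast this
      have hkb : (1 : ℤ) ≤ (k : ℤ) * b := by
        have : 1 ≤ k * b := Nat.mul_pos hk hb
        exact_mod_cast this
      refine ⟨by omega, ?_, ?_⟩
      · by_contra hcon
        rw [not_le] at hcon
        have h4 : (0 : ℤ) ≤ (T : ℤ) * d := by positivity
        have h5 : 0 < -q.2 := by linarith
        have h6 : 1 * (-q.2) ≤ ((k : ℤ) * b) * (-q.2) := mul_le_mul_of_nonneg_right hkb h5.le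
        have h7 : (k : ℤ) * b * (-q.2) = -((k : ℤ) * b * q.2) := by ring
        linarith
      · by_contra hcon
        rw [not_le] at hcon
        have h4 : (0 : ℤ) ≤ (T : ℤ) * d := by positivity
        have h5 : 0 < q.2 := by linarith
        have h6 : 1 * q.2 ≤ ((k : ℤ) * a) * q.2 := mul_le_mul_of_nonneg_right hka h5.le
        linarith
    · have hj : q.1 ≤ k * q.1 := Nat.le_mul_of_pos_left _ hk
      rw [h2]
      refine ⟨by omega, ?_, ?_⟩
      · have : (0 : ℤ) ≤ (T : ℤ) * d := by positivity
        linarith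
      · positivity

theorem t (hSHR : S_SHR) : S_CELL := by
  classical
  intro n m A lam H W V k d a b T e hD hH hW hl hk hd ha hb hT h1 hae h2
  obtain ⟨U, hU⟩ := wedge_fin k d a b T hk ha hb
  obtain ⟨al, hal⟩ : ∃ al : ℝ, al = (T : ℝ) / b := ⟨_, rfl⟩
  obtain ⟨be, hbe⟩ : ∃ be : ℝ, be = (T : ℝ) / a := ⟨_, rfl⟩
  obtain ⟨t, ht⟩ : ∃ t : ℝ, t = (d : ℝ) / k := ⟨_, rfl⟩
  rw [← hal] at hae
  rw [← hbe, ← hal] at h2
  rw [← hbe, ← ht] at h1
  have hk' : (0 : ℝ) < k := by exact_mod_cast hk
  have hd' : (0 : ℝ) < d := by exact_mod_cast hd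
  have ha' : (0 : ℝ) < a := by exact_mod_cast ha
  have hb' : (0 : ℝ) < b := by exact_mod_cast hb
  have hT' : (0 : ℝ) < T := by exact_mod_cast hT
  have hal0 : 0 < al := by
    rw [hal]
    positivity
  have hbe0 : 0 < be := by
    rw [hbe]
    positivity
  have ht0 : 0 < t := by
    rw [ht]
    positivity
  have hV0 : 0 < V := by
    refine lt_of_lt_of_le ?_ h1
    apply mul_pos _ ht0
    linarith
  have hN : ∀ s, nr (U.image fun q => (q.1, q.2 - e * q.1)) (s + 1) ≤ lam s := by
    intro s
    refine (count t (e - al) (al + be) (e * t) V (W / H) (by linarith) (by linarith) hV0 ?_ ?_ _ ?_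
      s).trans ?_
    · have h3 : (e : ℝ) - al + (al + be) = e + be := by ring
      rw [h3, mul_comm, add_comm al be]
      exact h2
    · have h3 : (e : ℝ) - al + (al + be) = e + be := by ring
      rw [h3]
      exact h1
    · intro q' hq'
      rw [Finset.mem_image] at hq'
      obtain ⟨q, hq, rfl⟩ := hq'
      unfold InTE
      rcases (hU q).1 hq with ⟨h6, h7, h8⟩ | ⟨h6, h7⟩
      · left
        have h6' : (k : ℝ) * q.1 < d := by exact_mod_cast h6
        have h7' : (k : ℝ) * a * q.2 < T * ((d : ℝ) - k * q.1) := by exact_mod_cast h7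
        have h8' : -((k : ℝ) * b * q.2) < T * ((d : ℝ) - k * q.1) := by exact_mod_cast h8
        have h9 : (q.2 : ℝ) < be * (t - q.1) := by
          have e1 : be * (t - q.1) = T * ((d : ℝ) - k * q.1) / (k * a) := by
            rw [hbe, ht]
            field_simp
          rw [e1, lt_div_iff₀ (by positivity)]
          linarith
        have h10 : -al * (t - q.1) < (q.2 : ℝ) := by
          have e1 : al * (t - q.1) = T * ((d : ℝ) - k * q.1) / (k * b) := by
            rw [hal, ht]
            field_simp
          have e2 : -(q.2 : ℝ) < al * (t - q.1) := by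
            rw [e1, lt_div_iff₀ (by positivity)]
            linarith
          linarith
        refine ⟨?_, ?_, ?_⟩
        · show (q.1 : ℝ) < t
          rw [ht, lt_div_iff₀ hk']
          linarith
        · push_cast
          linarith
        · push_cast
          linarith
      · right
        have h6' : (k : ℝ) * q.1 = d := by exact_mod_cast h6
        have h9 : (q.1 : ℝ) = t := by
          rw [ht, eq_div_iff hk'.ne']
          linarith
        refine ⟨h9, ?_⟩
        simp only [h7]
        push_cast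
        rw [← h9]
        ring
    · by_contra hcon
      have h5 : (lam s : ℝ) < V - s * (W / H) := Nat.lt_ceil.1 (not_le.1 hcon)
      apply lt_irrefl (lam s)
      apply hl
      have h6 : (lam s : ℝ) * H < (V - s * (W / H)) * H := mul_lt_mul_of_pos_right h5 hH
      have h7 : (V - s * (W / H)) * H = V * H - W * s := by
        field_simp
      linarith
  obtain ⟨u, v, hu, hv, hI⟩ := FIN.emp _ A lam (dg_ite hD A subset_rfl) _ hN
  have hI' := hSHR _ _ u v e U hu hv hI
  exact ⟨u, fun i => v i * u i ^ (-e), hu, fun i => mul_pos (hv i) (zpow_pos (hu i) _),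
    fun S hS => indep_sub (fun q hq => (hU q).2 (hS q hq)) hI'⟩

end Pool.Agent.Helper35.T1.CELL
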