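import Pool.Agent.Helper35.T1.CNT

/-!
Project T1: the lattice part of one cluster. Near points of residues `(x, y) = (l + 1, (l + 1) ^ (-e))`
and multiplicities `M l`, exponents `(j, n)` with `-α (t - j) < n < β (t - j)` and the apex.
-/

set_option autoImplicit false

noncomputable section

namespace Pool.Agent.Helper35.T1.CLU

open Pool.Agent.Helper97
open Pool.Agent.Helper97.Nag
open Pool.Agent.Helper35.T1.CNT (InTE count)

/-- binomial coefficients as products -/
theorem ch (k : ℕ) (x : ℤ) :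
    (k.factorial : ℤ) * Ring.choose x k = ∏ i ∈ Finset.range k, (x - i) := by
  have h1 := Ring.descPochhammer_eq_factorial_smul_choose x k
  rw [← descPochhammer_eval_eq_prod_range, Polynomial.eval_eq_smeval, h1, nsmul_eq_mul]

/-- shear of the conditions at one point -/
theorem shear (hSPN : Tate.S_SPN) (m : ℕ) (S : Finset (ℤ × ℤ)) (a : ℤ × ℤ → ℚ) (e : ℤ)
    (h : ∀ α β : ℕ, α + β < m →
      ∑ q ∈ S, a q * (((Ring.choose q.1 β : ℤ) : ℚ) * ((Ring.choose q.2 α : ℤ) : ℚ)) = 0)
    (α β : ℕ) (hαβ : α + β < m) :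
    ∑ q ∈ S, a q * (((Ring.choose q.1 β : ℤ) : ℚ) *
      ((Ring.choose (q.2 - e * q.1) α : ℤ) : ℚ)) = 0 := by
  have h1 := hSPN m S a h (((List.range β).map fun i : ℕ => ((1 : ℤ), (0 : ℤ), -(i : ℤ))) ++
    ((List.range α).map fun i : ℕ => (-e, (1 : ℤ), -(i : ℤ)))) (by
      rw [List.length_append, List.length_map, List.length_map, List.length_range,
        List.length_range]
      omega)
  have h2 : ∀ q ∈ S, a q * ((((List.range β).map fun i : ℕ => ((1 : ℤ), (0 : ℤ), -(i : ℤ))) ++
      ((List.range α).map fun i : ℕ => (-e, (1 : ℤ), -(i : ℤ)))).map fun c =>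
        ((c.1 * q.1 + c.2.1 * q.2 + c.2.2 : ℤ) : ℚ)).prod =
      ((β.factorial : ℚ) * (α.factorial : ℚ)) * (a q * (((Ring.choose q.1 β : ℤ) : ℚ) *
        ((Ring.choose (q.2 - e * q.1) α : ℤ) : ℚ))) := by
    intro q _
    have e1 : (((List.range β).map fun i : ℕ => ((1 : ℤ), (0 : ℤ), -(i : ℤ))).map fun c =>
        ((c.1 * q.1 + c.2.1 * q.2 + c.2.2 : ℤ) : ℚ)).prod =
        (β.factorial : ℚ) * ((Ring.choose q.1 β : ℤ) : ℚ) := by
      have h3 := congrArg (fun z : ℤ => (z : ℚ)) (ch β q.1)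
      push_cast at h3
      rw [h3, List.map_map, Finset.prod_range]
      rw [← List.prod_ofFn]
      congr 1
      rw [List.ofFn_eq_map, ← List.map_coe_finRange_eq_range, List.map_map]
      apply List.map_congr_left
      intro i _
      simp only [Function.comp_apply]
      push_cast
      ring
    have e2 : (((List.range α).map fun i : ℕ => (-e, (1 : ℤ), -(i : ℤ))).map fun c =>
        ((c.1 * q.1 + c.2.1 * q.2 + c.2.2 : ℤ) : ℚ)).prod =
        (α.factorial : ℚ) * ((Ring.choose (q.2 - e * q.1) α : ℤ) : ℚ) := by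
      have h3 := congrArg (fun z : ℤ => (z : ℚ)) (ch α (q.2 - e * q.1))
      push_cast at h3
      rw [h3, List.map_map, Finset.prod_range]
      rw [← List.prod_ofFn]
      congr 1
      rw [List.ofFn_eq_map, ← List.map_coe_finRange_eq_range, List.map_map]
      apply List.map_congr_left
      intro i _
      simp only [Function.comp_apply]
      push_cast
      ring
    rw [List.map_append, List.prod_append, e1, e2]
    ring
  rw [Finset.sum_congr rfl h2, ← Finset.mul_sum] at h1
  rcases mul_eq_zero.1 h1 with h3 | h3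
  · exfalso
    rcases mul_eq_zero.1 h3 with h4 | h4
    · exact Nat.factorial_ne_zero β (by exact_mod_cast h4)
    · exact Nat.factorial_ne_zero α (by exact_mod_cast h4)
  · exact h3

/-- the lattice part of one cluster -/
theorem cluster (hH : S_HOR) (hSPN : Tate.S_SPN) (b : ℕ) (M : Fin b → ℕ) (t al be : ℝ) (e : ℤ)
    (hae : al ≤ e) (hE : 0 < al + be)
    (h9 : (al + be) * (b : ℝ) ≤ (e + be) ^ 2) (hd : (e + be) * t ≤ ((∑ l, M l : ℕ) : ℝ))
    (hM : 1 ≤ ∑ l, M l) (S : Finset (ℤ × ℤ))
    (hS : ∀ q ∈ S, ∃ j : ℕ, q.1 = j ∧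
      (((j : ℝ) < t ∧ -al * (t - j) < q.2 ∧ (q.2 : ℝ) < be * (t - j)) ∨ ((j : ℝ) = t ∧ q.2 = 0)))
    (a : ℤ × ℤ → ℚ)
    (ha : ∀ (l : Fin b) (α β : ℕ), α + β < M l →
      ∑ q ∈ S, a q * (((Ring.choose q.1 β : ℤ) : ℚ) * ((Ring.choose q.2 α : ℤ) : ℚ) *
        (((l : ℕ) : ℚ) + 1) ^ (q.2 - e * q.1)) = 0) :
    ∀ q ∈ S, a q = 0 := by
  classical
  obtain ⟨f, hf⟩ : ∃ f : ℤ × ℤ → ℤ × ℤ, f = fun q => (q.1, q.2 - e * q.1) := ⟨_, rfl⟩
  have hf1 : ∀ q, (f q).1 = q.1 := by
    intro q
    rw [hf]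
  have hf2 : ∀ q, (f q).2 = q.2 - e * q.1 := by
    intro q
    rw [hf]
  have hinj : Function.Injective f := by
    intro p q hpq
    have h1 := congrArg Prod.fst hpq
    have h2 := congrArg Prod.snd hpq
    rw [hf1, hf1] at h1
    rw [hf2, hf2, h1] at h2
    exact Prod.ext h1 (by linarith)
  have hI : IndepV M (S.image f) := by
    apply hH
    intro s hs
    apply count b M t ((e : ℝ) - al) (al + be) ((e : ℝ) * t) (by linarith) hE
      (by
        have h1 : (e : ℝ) - al + (al + be) = e + be := by ring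
        rw [h1]
        exact h9)
      (by
        have h1 : (e : ℝ) - al + (al + be) = e + be := by ring
        rw [h1]
        exact hd) hM _ _ s hs
    intro q' hq'
    rw [Finset.mem_image] at hq'
    obtain ⟨q, hq, rfl⟩ := hq'
    obtain ⟨j, hj, hI⟩ := hS q hq
    refine ⟨j, by rw [hf1]; exact hj, ?_⟩
    unfold InTE
    rw [hf2, hj]
    rcases hI with ⟨h1, h2, h3⟩ | ⟨h1, h2⟩
    · left
      refine ⟨h1, ?_, ?_⟩
      · push_cast
        linarith
      · push_cast
        linarith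
    · right
      refine ⟨h1, ?_⟩
      rw [h2]
      push_cast
      rw [← h1]
      ring
  have hres := hI (fun q' => a (q'.1, q'.2 + e * q'.1)) ?_
  · intro q hq
    have h1 := hres (f q) (Finset.mem_image_of_mem f hq)
    simp only [hf1, hf2] at h1
    rw [← h1]
    congr 1
    exact Prod.ext rfl (by simp)
  · intro l α β hαβ
    rw [Finset.sum_image (fun p _ q _ h => hinj h)]
    have h1 := shear hSPN (M l) S (fun q => a q * (((l : ℕ) : ℚ) + 1) ^ (q.2 - e * q.1)) e
      (by
        intro α' β' h'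
        rw [← ha l α' β' h']
        apply Finset.sum_congr rfl
        intro q _
        ring) α β hαβ
    rw [← h1]
    apply Finset.sum_congr rfl
    intro q _
    have h2 : ((q.1, q.2 - e * q.1 + e * q.1) : ℤ × ℤ) = q := Prod.ext rfl (by simp)
    simp only [hf1, hf2, h2]
    ring

end Pool.Agent.Helper35.T1.CLU
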