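import Pool.Agent.Helper35.Nag.TRN

/-!
Project T1 (clusters in independent loops): the count of the long rows of a triangle of angle `E`,
with a real offset `o` of the rows.
-/

set_option autoImplicit false

noncomputable section

namespace Pool.Agent.Helper35.T1.CNT

open Pool.Agent.Helper97.Nag
open Pool.Agent.Helper35.Nag.TRN (card_le spread)

/-- the triangle of angle `E`, lower slope `rho`, height `t`, rows shifted by `o`, with its apex -/
def InTE (t rho E o : ℝ) (j : ℕ) (n : ℤ) : Prop :=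
  ((j : ℝ) < t ∧ rho * (t - j) < n + o ∧ (n : ℝ) + o < (rho + E) * (t - j)) ∨
    ((j : ℝ) = t ∧ (n : ℝ) + o = 0)

/-- the count: `(rho + E) t ≤ ∑ M l` and `b E ≤ (rho + E)²` give at most `∑ (M l + 1 - s)^+` rows with
at least `s` points -/
theorem count (b : ℕ) (M : Fin b → ℕ) (t rho E o : ℝ) (h0 : 0 ≤ rho) (hE : 0 < E)
    (h9 : E * (b : ℝ) ≤ (rho + E) ^ 2) (hd : (rho + E) * t ≤ ((∑ l, M l : ℕ) : ℝ))
    (hM : 1 ≤ ∑ l, M l) (S : Finset (ℤ × ℤ))
    (hS : ∀ q ∈ S, ∃ j : ℕ, q.1 = j ∧ InTE t rho E o j q.2) (s : ℕ) (hs : 1 ≤ s) :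
    (lnv S s).card ≤ ∑ l, (M l + 1 - s) := by
  have hc : 0 < rho + E := by linarith
  obtain rfl | h2 := hs.eq_or_lt
  · -- one point in the row
    have hB : ∑ l, (M l + 1 - 1) = ∑ l, M l := by simp
    rw [hB]
    have hM' : (1 : ℝ) ≤ ((∑ l, M l : ℕ) : ℝ) := by exact_mod_cast hM
    have hsub : lnv S 1 ⊆ Finset.Ico ⌈-o⌉ (⌈-o⌉ + ((∑ l, M l : ℕ) : ℤ)) := by
      intro X hX
      unfold lnv at hX
      rw [Finset.mem_filter, Finset.mem_image] at hX
      obtain ⟨⟨q, hq, rfl⟩, -⟩ := hX
      obtain ⟨j, hj, hI⟩ := hS q hq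
      have hlow : -o ≤ (q.2 : ℝ) := by
        rcases hI with ⟨hjd, h1, h3⟩ | ⟨hjd, h1⟩
        · have hv : 0 < t - j := by linarith
          have : 0 ≤ rho * (t - j) := mul_nonneg h0 hv.le
          linarith
        · linarith
      have hup : (q.2 : ℝ) < -o + ((∑ l, M l : ℕ) : ℝ) := by
        rcases hI with ⟨hjd, h1, h3⟩ | ⟨hjd, h1⟩
        · have h5 : (rho + E) * (t - j) ≤ (rho + E) * t := by
            apply mul_le_mul_of_nonneg_left _ hc.le
            have : (0 : ℝ) ≤ j := Nat.cast_nonneg j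
            linarith
          linarith
        · linarith
      rw [Finset.mem_Ico]
      constructor
      · exact Int.ceil_le.mpr hlow
      · have h6 : (q.2 : ℝ) < ((⌈-o⌉ + ((∑ l, M l : ℕ) : ℤ) : ℤ) : ℝ) := by
          push_cast
          have := Int.le_ceil (-o)
          push_cast at hup
          linarith
        exact_mod_cast h6
    calc (lnv S 1).card ≤ (Finset.Ico ⌈-o⌉ (⌈-o⌉ + ((∑ l, M l : ℕ) : ℤ))).card :=
          Finset.card_le_card hsub
      _ = ∑ l, M l := by
        rw [Int.card_Ico, add_sub_cancel_left, Int.toNat_natCast]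
  · -- at least two points
    obtain ⟨σ, rfl⟩ : ∃ σ : ℕ, s = σ + 1 := ⟨s - 1, by omega⟩
    have hσ : 1 ≤ σ := by omega
    have hB : ((∑ l, M l : ℕ) : ℝ) - b * σ ≤ ((∑ l, (M l + 1 - (σ + 1)) : ℕ) : ℝ) := by
      rw [Nat.cast_sum, Nat.cast_sum]
      have h3 : ∀ l : Fin b, ((M l : ℝ) - σ) ≤ ((M l + 1 - (σ + 1) : ℕ) : ℝ) := by
        intro l
        have h4 : (M l : ℤ) - σ ≤ ((M l + 1 - (σ + 1) : ℕ) : ℤ) := by omega
        exact_mod_cast h4
      calc ∑ l, (M l : ℝ) - b * σ = ∑ l : Fin b, ((M l : ℝ) - σ) := by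
            rw [Finset.sum_sub_distrib]
            simp
        _ ≤ ∑ l, ((M l + 1 - (σ + 1) : ℕ) : ℝ) := Finset.sum_le_sum fun l _ => h3 l
    apply card_le (a := σ * rho * (rho + E) / E - o) (c := (rho + E) * (t - σ) - o)
    · intro X hX
      unfold lnv at hX
      rw [Finset.mem_filter, Finset.mem_image] at hX
      obtain ⟨-, hcard⟩ := hX
      -- the first coordinates
      have hinj : Set.InjOn (Prod.fst : ℤ × ℤ → ℤ) (S.filter fun q => q.2 = X) := by
        intro p hp q hq hpq
        rw [Finset.mem_coe, Finset.mem_filter] at hp hq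
        exact Prod.ext hpq (hp.2.trans hq.2.symm)
      have hcard' : σ + 1 ≤ ((S.filter fun q => q.2 = X).image Prod.fst).card := by
        rw [Finset.card_image_of_injOn hinj]
        exact hcard
      obtain ⟨x, hx, y, hy, hxy⟩ := spread hcard'
      rw [Finset.mem_image] at hx hy
      obtain ⟨p, hp, rfl⟩ := hx
      obtain ⟨q, hq, rfl⟩ := hy
      rw [Finset.mem_filter] at hp hq
      obtain ⟨hpS, hpX⟩ := hp
      obtain ⟨hqS, hqX⟩ := hq
      obtain ⟨i, hi, hIp⟩ := hS p hpS
      obtain ⟨j, hj, hIq⟩ := hS q hqS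
      rw [hpX] at hIp
      rw [hqX] at hIq
      rw [hi, hj] at hxy
      have hxy' : (i : ℝ) + σ ≤ j := by exact_mod_cast hxy
      have hσ' : (1 : ℝ) ≤ σ := by exact_mod_cast hσ
      have hjd : (j : ℝ) ≤ t := by
        rcases hIq with ⟨h3, -, -⟩ | ⟨h3, -⟩
        · exact h3.le
        · exact h3.le
      have hp1 : rho * (t - i) < X + o := by
        rcases hIp with ⟨h3, h4, -⟩ | ⟨h3, -⟩
        · exact h4
        · exfalso
          linarith
      have hX : 0 < (X : ℝ) + o := by
        refine lt_of_le_of_lt (mul_nonneg h0 ?_) hp1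
        linarith
      have hq1 : (X : ℝ) + o < (rho + E) * (t - j) := by
        rcases hIq with ⟨-, -, h4⟩ | ⟨-, h4⟩
        · exact h4
        · exfalso
          linarith
      constructor
      · -- lower bound
        have e1 : (rho + E) * (rho * (t - i)) < (rho + E) * (X + o) :=
          mul_lt_mul_of_pos_left hp1 hc
        have e2 : rho * ((X : ℝ) + o) ≤ rho * ((rho + E) * (t - j)) :=
          mul_le_mul_of_nonneg_left hq1.le h0
        have e3 : rho * (rho + E) * ((i : ℝ) + σ) ≤ rho * (rho + E) * j :=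
          mul_le_mul_of_nonneg_left hxy' (mul_nonneg h0 hc.le)
        have e4 : σ * rho * (rho + E) / E < X + o := by
          rw [div_lt_iff₀ hE]
          nlinarith
        linarith
      · have e5 : (rho + E) * (t - j) ≤ (rho + E) * (t - σ) := by
          apply mul_le_mul_of_nonneg_left _ hc.le
          have : (0 : ℝ) ≤ i := Nat.cast_nonneg i
          linarith
        linarith
    · refine le_trans ?_ hB
      have hσ' : (0 : ℝ) ≤ σ := Nat.cast_nonneg σ
      have e1 : (b : ℝ) ≤ (rho + E) ^ 2 / E := by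
        rw [le_div_iff₀ hE]
        linarith
      have e2 : (rho + E) * (t - σ) - o - (σ * rho * (rho + E) / E - o) =
          (rho + E) * t - σ * ((rho + E) ^ 2 / E) := by
        field_simp
        ring
      rw [e2]
      have e3 : (σ : ℝ) * b ≤ σ * ((rho + E) ^ 2 / E) := mul_le_mul_of_nonneg_left e1 hσ'
      linarith

end Pool.Agent.Helper35.T1.CNT
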