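import Pool.Agent.Helper35.T1.WED
import Pool.Agent.Helper1.T1.EMPT

/-!
Project T1: EMPT2 with a non strict hypothesis `k² ≤ ∑ E_l`. One cell with `E > 1` is taken closed on one side
(CELLC), and its slopes are moved up (WED); then the sum of the slopes is bigger than `k²`.
-/

set_option autoImplicit false

noncomputable section

namespace Pool.Agent.Helper35.T1.EMPTLE

open Module Pool.Agent.Helper97 Pool.Agent.Helper97.Nag Pool.Agent.Helper98.UN Pool.Agent.Helper1.All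
  Pool.Agent.Helper1.T1

open Pool.Agent.Helper97.Tate (OO KK SS cf iO evx evK Van Fm)

/-- EMPT2 with `≤` -/
def S_EMPTLE : Prop := ∀ (k c d n : ℕ) (m : Fin n → ℕ) (A : Fin c → Finset (Fin n))
  (lam : Fin c → ℕ → ℕ) (H W V : Fin c → ℝ), 3 ≤ k → 2 * c ≤ (k - 1) * (k - 2) →
  1 ≤ d → (∀ l l', l ≠ l' → Disjoint (A l) (A l')) → (∀ l, Dg m (A l) (lam l) ∧ 0 < H l ∧ 0 < W l) →
  (∀ (l : Fin c) (s a' : ℕ), (a' : ℝ) * H l + W l * s < V l * H l → a' < lam l s) →
  (∀ l, 1 < V l / ((d : ℝ) / k) ∧ V l / ((d : ℝ) / k) < W l / H l) →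
  ((k : ℝ) ^ 2 ≤ ∑ l, (V l / ((d : ℝ) / k)) ^ 2 * (H l / W l)) →
  ∃ (K : Type) (_ : Field K) (_ : CharZero K) (P : Fin n → Fin 3 → K),
    finrank K (Fm K d ⊓ ⨅ l, Van (P l) (m l) : Submodule K (MvPolynomial (Fin 3) K)) = 0

theorem t (hM : S_MAINT) (hC : S_CELLP) (hCc : S_CELLC) (hR : S_RATP) (hPQ : S_PQ0) : S_EMPTLE := by
  classical
  intro k c d n m A lam H W V hk hc hd hdis hDg hlam hV hsum
  have hk0 : (0 : ℝ) < k := by
    have : 0 < k := by omega
    exact_mod_cast this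
  have hd0 : (0 : ℝ) < d := by
    have : 0 < d := by omega
    exact_mod_cast this
  obtain ⟨t, ht⟩ : ∃ t : ℝ, t = (d : ℝ) / k := ⟨_, rfl⟩
  have ht0 : 0 < t := by
    rw [ht]
    positivity
  rw [← ht] at hsum
  simp only [← ht] at hV
  have hc0 : 0 < c := by
    rcases Nat.eq_zero_or_pos c with h0 | h0
    · subst h0
      rw [Finset.univ_eq_empty, Finset.sum_empty] at hsum
      exact absurd hsum (not_le.2 (by positivity))
    · exact h0
  -- the data of the cells
  obtain ⟨v, hv⟩ : ∃ v : Fin c → ℝ, ∀ l, v l = V l / t := ⟨fun l => V l / t, fun l => rfl⟩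
  obtain ⟨R, hRl⟩ : ∃ R : Fin c → ℝ, ∀ l, R l = W l / H l := ⟨fun l => W l / H l, fun l => rfl⟩
  have hv1 : ∀ l, 1 < v l := fun l => by
    rw [hv]
    exact (hV l).1
  have hvR : ∀ l, v l < R l := fun l => by
    rw [hv, hRl]
    exact (hV l).2
  have hv0 : ∀ l, 0 < v l := fun l => lt_trans one_pos (hv1 l)
  have hR0 : ∀ l, 0 < R l := fun l => (hv0 l).trans (hvR l)
  have hvV : ∀ l, v l * t = V l := by
    intro l
    rw [hv]
    exact div_mul_cancel₀ _ ht0.ne'
  have hpq := fun l => hPQ (v l) (R l) (hv1 l) (hvR l)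
  choose p q hp hcop hpq1 hpq2 hpq3 hpq4 using hpq
  obtain ⟨E, hE⟩ : ∃ E : Fin c → ℝ, ∀ l, E l = v l ^ 2 / R l := ⟨fun l => v l ^ 2 / R l, fun l => rfl⟩
  simp only [← hE] at hpq1 hpq2 hpq4
  have hsumE : (k : ℝ) ^ 2 ≤ ∑ l, E l := by
    refine hsum.trans (le_of_eq ?_)
    apply Finset.sum_congr rfl
    intro l _
    rw [hE, hv, hRl, div_div_eq_mul_div, mul_div_assoc]
  have hRE : ∀ l, R l * E l = v l ^ 2 := by
    intro l
    rw [hE, mul_div_cancel₀ _ (hR0 l).ne']
  -- a cell with `E > 1`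
  have hl₀ : ∃ l₀, 1 < E l₀ := by
    by_contra hcon
    push Not at hcon
    have h1 : ∑ l, E l ≤ c := by
      calc ∑ l, E l ≤ ∑ _l : Fin c, (1 : ℝ) := Finset.sum_le_sum fun l _ => hcon l
        _ = c := by simp
    have h2 : (k : ℝ) ^ 2 ≤ c := hsumE.trans h1
    have h3 : k ^ 2 ≤ c := by exact_mod_cast h2
    have h6 : (k - 1) * (k - 2) ≤ k * k := Nat.mul_le_mul (Nat.sub_le _ _) (Nat.sub_le _ _)
    have h7 : 0 < k * k := Nat.mul_pos (by omega) (by omega)
    rw [sq] at h3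
    omega
  obtain ⟨l₀, hl₀⟩ := hl₀
  have hp1 : p l₀ = 1 := hpq4 l₀ hl₀
  have hEv : E l₀ < v l₀ := by
    rw [hE, div_lt_iff₀ (hR0 l₀), sq]
    exact mul_lt_mul_of_pos_left (hvR l₀) (hv0 l₀)
  obtain ⟨be, hbe⟩ : ∃ be : ℝ, be = v l₀ - q l₀ := ⟨_, rfl⟩
  obtain ⟨al, hal⟩ : ∃ al : ℝ, al = E l₀ - be := ⟨_, rfl⟩
  have hbe0 : 0 < be := by
    rw [hbe]
    have := hpq3 l₀
    linarith
  have hal0 : 0 < al := by
    have := hpq2 l₀
    rw [hp1, Nat.cast_one, one_mul] at this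
    rw [hal, hbe]
    linarith
  have hsE : al + be = E l₀ := by
    rw [hal]
    ring
  obtain ⟨a0, b0, ha1, hb1, hb2, hab1, hab2, hab3, hw⟩ :=
    WED.wed k d al be (v l₀) hbe0 (by rw [hsE]; exact hEv)
  obtain ⟨E', hE'⟩ : ∃ E' : ℝ, E' = (a0 : ℝ) + b0 := ⟨_, rfl⟩
  rw [← hE'] at hab1 hab2
  rw [hsE] at hab1
  have hE'0 : 0 < E' := by
    have : (0 : ℝ) < E l₀ := lt_trans one_pos hl₀
    linarith
  have ha0 : (0 : ℝ) < a0 := hal0.trans ha1
  have hb0 : (0 : ℝ) < b0 := by exact_mod_cast hb1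
  obtain ⟨A0, B0, D0, hA0, hB0, hD0, eA, eB⟩ := WED.common a0 b0 (by exact_mod_cast ha0) hb1
  -- RATP, with a dummy cell
  obtain ⟨L, a, T, h1, h2, h3⟩ := hR c k d V (fun l => if l = l₀ then v l₀ ^ 2 / E' else R l)
    (fun l => if l = l₀ then E' else E l) p q (by omega) hd
    (by
      intro l
      rw [← ht, ← hv]
      by_cases hl : l = l₀
      · subst hl
        simp only [if_true]
        refine ⟨by have := hv0 l; positivity, hp l, ?_, ?_, ?_, hpq3 l⟩
        · rw [hp1, Nat.cast_one, one_mul, ← hvV]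
          exact mul_le_mul_of_nonneg_right hab2.le ht0.le
        · rw [div_mul_cancel₀ _ hE'0.ne', ← hvV]
          apply le_of_eq
          ring
        · have h5 := hpq2 l
          rw [hp1, Nat.cast_one, one_mul] at h5 ⊢
          linarith
      · simp only [if_neg hl]
        refine ⟨hR0 l, hp l, ?_, ?_, hpq2 l, hpq3 l⟩
        · rw [← hvV]
          exact mul_le_mul_of_nonneg_right (hpq1 l) ht0.le
        · rw [hRE, ← hvV]
          apply le_of_eq
          ring)
    (by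
      refine lt_of_le_of_lt hsumE ?_
      apply Finset.sum_lt_sum
      · intro l _
        by_cases hl : l = l₀
        · subst hl
          rw [if_pos rfl]
          exact hab1.le
        · rw [if_neg hl]
      · refine ⟨l₀, Finset.mem_univ _, ?_⟩
        rw [if_pos rfl]
        exact hab1)
  have hA0' : (0 : ℝ) < A0 := by exact_mod_cast hA0
  have hB0' : (0 : ℝ) < B0 := by exact_mod_cast hB0
  have hD0' : (0 : ℝ) < D0 := by exact_mod_cast hD0
  have hL0 : 0 < L := lt_of_le_of_lt (Nat.zero_le _) (h1 l₀).2.1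
  have hL0' : (0 : ℝ) < L := by exact_mod_cast hL0
  -- the new parameters
  obtain ⟨N, hN⟩ : ∃ N : ℕ, N = D0 * (A0 + B0) := ⟨_, rfl⟩
  have hN0 : 0 < N := by
    rw [hN]
    exact Nat.mul_pos hD0 (by omega)
  have hN0' : (0 : ℝ) < N := by exact_mod_cast hN0
  obtain ⟨a', ha'⟩ : ∃ a' : Fin c → ℕ, ∀ l, a' l = if l = l₀ then L * (D0 * A0) else N * a l :=
    ⟨_, fun _ => rfl⟩
  obtain ⟨T', hT'⟩ : ∃ T' : Fin c → ℕ, ∀ l, T' l = if l = l₀ then L * (B0 * A0) else N * T l :=
    ⟨_, fun _ => rfl⟩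
  have hLa₀ : L * N - a' l₀ = L * (D0 * B0) := by
    rw [ha', if_pos rfl, hN, mul_add, mul_add, Nat.add_sub_cancel_left]
  have hLa : ∀ l, l ≠ l₀ → L * N - a' l = N * (L - a l) := by
    intro l hl
    rw [ha', if_neg hl, mul_comm L N, Nat.mul_sub]
  have s1 : (T' l₀ : ℝ) / a' l₀ = b0 := by
    rw [hT', ha', if_pos rfl, if_pos rfl, eB]
    push_cast
    field_simp
  have s2 : (T' l₀ : ℝ) / ((L * N - a' l₀ : ℕ) : ℝ) = a0 := by
    rw [hT', hLa₀, if_pos rfl, eA]
    push_cast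
    field_simp
  have s3 : ∀ l, l ≠ l₀ → (T' l : ℝ) / a' l = (T l : ℝ) / a l := by
    intro l hl
    rw [hT', ha', if_neg hl, if_neg hl]
    push_cast
    exact mul_div_mul_left _ _ hN0'.ne'
  have s4 : ∀ l, l ≠ l₀ → (T' l : ℝ) / ((L * N - a' l : ℕ) : ℝ) =
      (T l : ℝ) / ((L - a l : ℕ) : ℝ) := by
    intro l hl
    rw [hT', hLa l hl, if_neg hl, Nat.cast_mul, Nat.cast_mul]
    exact mul_div_mul_left _ _ hN0'.ne'
  have h1' : ∀ l, 0 < a' l ∧ a' l < L * N ∧ 2 * a' l ≠ L * N ∧ 0 < T' l := by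
    intro l
    by_cases hl : l = l₀
    · subst hl
      have hlt : 0 < L * N - a' l := by
        rw [hLa₀]
        exact Nat.mul_pos hL0 (Nat.mul_pos hD0 hB0)
      refine ⟨?_, by omega, ?_, ?_⟩
      · rw [ha', if_pos rfl]
        exact Nat.mul_pos hL0 (Nat.mul_pos hD0 hA0)
      · intro h4
        have h5 : L * N - a' l = a' l := by omega
        rw [hLa₀, ha', if_pos rfl] at h5
        have h6 := Nat.eq_of_mul_eq_mul_left hD0 (Nat.eq_of_mul_eq_mul_left hL0 h5)
        apply hab3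
        have h7 : (a0 : ℝ) = (b0 : ℝ) := by rw [eA, eB, h6]
        exact_mod_cast h7
      · rw [hT', if_pos rfl]
        exact Nat.mul_pos hL0 (Nat.mul_pos hB0 hA0)
    · obtain ⟨g1, g2, g3, g4⟩ := h1 l
      rw [ha', hT', if_neg hl, if_neg hl]
      refine ⟨Nat.mul_pos hN0 g1, ?_, ?_, Nat.mul_pos hN0 g4⟩
      · rw [mul_comm L N]
        exact Nat.mul_lt_mul_of_pos_left g2 hN0
      · intro h4
        apply g3
        have h5 : N * (2 * a l) = N * L := by
          rw [mul_comm N L, ← h4]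
          ring
        exact Nat.eq_of_mul_eq_mul_left hN0 h5
  have h2' : ((k : ℝ) ^ 2 <
      ∑ l, ((T' l : ℝ) / a' l + (T' l : ℝ) / ((L * N - a' l : ℕ) : ℝ))) := by
    refine h2.trans_le (Finset.sum_le_sum fun l _ => ?_)
    by_cases hl : l = l₀
    · subst hl
      rw [s1, s2]
      obtain ⟨g1, g2, g3⟩ := h3 l
      rw [if_pos rfl] at g3
      rw [← ht] at g1
      -- the slopes of the dummy cell
      have g4 : ((q l : ℝ) + p l * ((T l : ℝ) / a l)) ≤ v l := by
        rw [hv, le_div_iff₀ ht0]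
        exact g1
      have g5 : 0 ≤ ((q l : ℝ) + p l * ((T l : ℝ) / a l)) := by positivity
      have g6 : v l ^ 2 / E' * ((T l : ℝ) / a l + (T l : ℝ) / ((L - a l : ℕ) : ℝ)) ≤ v l ^ 2 :=
        g3.trans (pow_le_pow_left₀ g5 g4 2)
      have hv2 : 0 < v l ^ 2 := by
        have := hv0 l
        positivity
      have g7 : v l ^ 2 * ((T l : ℝ) / a l + (T l : ℝ) / ((L - a l : ℕ) : ℝ)) ≤ v l ^ 2 * E' := by
        rw [div_mul_eq_mul_div, div_le_iff₀ hE'0] at g6
        exact g6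
      have g8 := le_of_mul_le_mul_left g7 hv2
      rw [hE'] at g8
      linarith
    · rw [s3 l hl, s4 l hl]
  have h4 : ∀ l : Fin c, ∃ u w : Fin n → ℚ, (∀ i, 0 < u i) ∧ (∀ i, 0 < w i) ∧
      ∀ S : Finset (ℕ × ℤ), (∀ q ∈ S, InW k d (a' l) (L * N - a' l) (T' l) q.1 q.2) →
        IndepC (fun i => if i ∈ A l then m i else 0) u w S := by
    intro l
    have hpos : 0 < L * N - a' l := by
      have := (h1' l).2.1
      omega
    by_cases hl : l = l₀
    · subst hl
      obtain ⟨u, w, hu, hw', hI⟩ := hCc n m (A l) (lam l) (H l) (W l) (V l) k d al be (p l) (q l)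
        (hDg l).1 (hDg l).2.1 (hDg l).2.2 (hlam l) (by omega) hd hal0 hbe0 (hp l) (hcop l)
        (by
          rw [← ht, hp1, hbe, ← hvV]
          apply le_of_eq
          push_cast
          ring)
        (by
          rw [hp1, hal, hbe]
          push_cast
          linarith)
        (by
          rw [hsE, ← hRl, hRE, hp1, hbe]
          apply le_of_eq
          push_cast
          ring)
      refine ⟨u, w, hu, hw', fun S hS => hI S fun s hs => ?_⟩
      refine WED.inW_sub (by omega) (h1' l).1 hpos ?_ ?_ (hS s hs)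
      · rw [s1]
        exact hb2.le
      · intro j n hj hn
        rw [s2] at hn
        exact hw j n hj hn
    · obtain ⟨g1, g2, g3⟩ := h3 l
      simp only [if_neg hl] at g3
      refine hC n m (A l) (lam l) (H l) (W l) (V l) k d (a' l) (L * N - a' l) (T' l) (p l) (q l)
        (hDg l).1 (hDg l).2.1 (hDg l).2.2 (hlam l) (by omega) hd (h1' l).1 hpos (h1' l).2.2.2 (hp l)
        (hcop l) ?_ ?_ ?_
      · rw [s3 l hl]
        exact g1
      · rw [s4 l hl]
        exact g2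
      · rw [s3 l hl, s4 l hl, ← hRl]
        exact g3
  choose u w hu hw' hcell using h4
  have hg : ∀ i : Fin n, ∃ l : Fin c, ∀ l', i ∈ A l' → l' = l := by
    intro i
    by_cases hi : ∃ l, i ∈ A l
    · obtain ⟨l, hl⟩ := hi
      refine ⟨l, fun l' hl' => ?_⟩
      by_contra hne
      exact Finset.disjoint_left.1 (hdis l' l hne) hl' hl
    · push Not at hi
      exact ⟨⟨0, hc0⟩, fun l' hl' => absurd hl' (hi l')⟩
  choose g hg using hg
  refine hM k (L * N) c d n m g (fun i => u (g i) i) (fun i => w (g i) i) a' T' hk hc hc0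
    (fun i => hu _ i) (fun i => hw' _ i) h1' h2' ?_
  intro l C hCl
  apply Pool.Agent.Helper1.T1.EMPT.mono (hcell l C hCl)
  · intro i
    by_cases hi : i ∈ A l
    · rw [if_pos hi, if_pos (hg i l hi).symm]
    · rw [if_neg hi]
      exact Nat.zero_le _
  · intro i hi
    by_cases hi' : i ∈ A l
    · rw [← hg i l hi']
      exact ⟨rfl, rfl⟩
    · rw [if_neg hi'] at hi
      exact absurd rfl hi

end Pool.Agent.Helper35.T1.EMPTLE
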