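import Pool.Agent.Helper35.UQ.CELL
import Pool.Agent.Helper1.T1.Goals
import Pool.Agent.Helper97.Tate.All

/-! Project T1, packet SHR: the shear. -/

set_option autoImplicit false

noncomputable section

namespace Pool.Agent.Helper35.T1.SHR

open Pool.Agent.Helper1.T1

theorem t : S_SHR := by
  intro b M u w e S hu hw h
  exact Pool.Agent.Helper35.UQ.CELL.indep_sh Pool.Agent.Helper97.Tate.all_SPN hu hw h

end Pool.Agent.Helper35.T1.SHR
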