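import Pool.Agent.Helper1.T1.STRE
import Pool.Agent.Helper35.T1.EMPTLE

/-!
Project T1: the strict inequality, from the non strict emptiness EMPTLE.
-/

set_option autoImplicit false

noncomputable section

namespace Pool.Agent.Helper35.T1.STRLE

open Module Pool.Agent.Helper97 Pool.Agent.Helper97.Nag Pool.Agent.Helper98.UN Pool.Agent.Helper1.All
  Pool.Agent.Helper1.T1 Pool.Agent.Helper1.T1.NEF Pool.Agent.Helper1.T1.STR
  Pool.Agent.Helper35.T1.EMPTLE

open Pool.Agent.Helper97.Tate (OO KK SS cf iO evx evK Van Fm)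

theorem t (hE : S_EMPT2) (hEE : S_EMPTLE) (hN : S_NEFA2) (hB : S_BIG) (hAr : S_AREA)
    (hT : Tate.S_TRK)
    {n : ℕ} {k c : ℕ} {μ : Fin n → ℝ} {W H : Fin c → ℝ} {A : Fin c → Finset (Fin n)}
    {D : ℝ} (hk : 3 ≤ k) (hc : 2 * c ≤ (k - 1) * (k - 2))
    (hdis : ∀ l l', l ≠ l' → Disjoint (A l) (A l'))
    (hCut : ∀ l, Cut μ μ (W l) (H l) (A l)) (hD : 0 < D) (hD2 : D ^ 2 = ∑ l, W l * H l)
    (hkH : ∀ l, k * H l < D ∧ D < k * W l)
    (d : ℕ) (hd : 1 ≤ d) (m : Fin n → ℕ) (hle : D * d ≤ ∑ l, ∑ i ∈ A l, μ i * m i) :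
    GenDim d m 0 ∧ vdim d m ≤ 0 := by
  classical
  rcases lt_or_eq_of_le hle with hlt | heq
  · exact Pool.Agent.Helper1.T1.NEF2.gen hE hN hB hAr hT hk hc hdis hCut hD hD2 hkH d m hlt
  by_contra hcon
  have hX := fun l => Pool.Agent.Helper1.T1.STRE.eqX hE hN hB hAr hT hk hc hdis hCut hD hD2 hkH l d m
    heq hcon
  have htri := fun l => tri m (hCut l)
  choose hW0 hH0 lam hlam using htri
  have hk0 : (0 : ℝ) < k := by
    have : 0 < k := by omega
    exact_mod_cast this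
  have hd0 : (0 : ℝ) < d := by
    have : 0 < d := by omega
    exact_mod_cast this
  obtain ⟨V, hV⟩ : ∃ V : Fin c → ℝ, ∀ l, V l = (∑ i ∈ A l, μ i * (m i : ℝ)) / H l :=
    ⟨fun l => (∑ i ∈ A l, μ i * (m i : ℝ)) / H l, fun l => rfl⟩
  have hVH : ∀ l, V l * H l = ∑ i ∈ A l, μ i * (m i : ℝ) := by
    intro l
    rw [hV, div_mul_cancel₀ _ (hH0 l).ne']
  -- `v = k W / D`
  have hv : ∀ l, V l / ((d : ℝ) / k) = k * W l / D := by
    intro l
    rw [hV l, hX l]
    have h1 := (hH0 l).ne'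
    have h2 := hD.ne'
    have h3 := hd0.ne'
    have h4 := hk0.ne'
    field_simp
  obtain ⟨K, i1, i2, Q, hQ⟩ := hEE k c d n m A lam H W V hk hc hd hdis
    (fun l => ⟨(hlam l).1, hH0 l, hW0 l⟩)
    (by
      intro l s a' hsa
      apply (hlam l).2
      refine lt_of_lt_of_eq hsa ?_
      rw [hVH l]
      apply Finset.sum_congr rfl
      intro i _
      rw [min_self])
    (by
      intro l
      rw [hv l]
      constructor
      · rw [lt_div_iff₀ hD, one_mul]
        exact (hkH l).2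
      · rw [div_lt_div_iff₀ hD (hH0 l)]
        have h2 := mul_lt_mul_of_pos_left (hkH l).1 (hW0 l)
        linarith)
    (by
      have h3 : ∀ l, (V l / ((d : ℝ) / k)) ^ 2 * (H l / W l) = (k : ℝ) ^ 2 / D ^ 2 * (W l * H l) := by
        intro l
        rw [hv l]
        have h4 := (hH0 l).ne'
        have h5 := (hW0 l).ne'
        have h6 := hD.ne'
        field_simp
      rw [Finset.sum_congr rfl fun l _ => h3 l, ← Finset.mul_sum, ← hD2]
      have h6 := hD.ne'
      apply le_of_eq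
      field_simp)
  have h5 := transC (n := n) (d := d) (m := m) (N := 0) hT ⟨K, i1, i2, Q, by omega⟩
  have h6 := upgrade h5 (by simp)
  obtain ⟨G', hG0, hG⟩ := h5
  have h7 : GenDim d m 0 := ⟨G', hG0, fun P _ hP => by
    rw [Nat.le_zero.1 (hG P hP)]
    rfl⟩
  apply hcon
  refine ⟨h7, ?_⟩
  rw [← gen_unique h6 h7]
  exact le_max_left _ _

end Pool.Agent.Helper35.T1.STRLE
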