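import Mathlib
import Pool.Agent.Helper1.T1.Goals3

/-! Project T1: the slopes of a half closed wedge may be moved up. -/

set_option autoImplicit false

noncomputable section

namespace Pool.Agent.Helper35.T1.WED

open Pool.Agent.Helper1.T1 Filter Topology

/-- WED: the half closed wedge contains an open wedge with a bigger sum of the slopes -/
theorem wed (k d : ℕ) (al be M : ℝ) (hbe : 0 < be) (hM : al + be < M) :
    ∃ a0 b0 : ℚ, al < a0 ∧ 0 < b0 ∧ (b0 : ℝ) < be ∧ al + be < a0 + b0 ∧ (a0 : ℝ) + b0 < M ∧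
      a0 ≠ b0 ∧ ∀ (j : ℕ) (n : ℤ), k * j < d → -((a0 : ℝ) * ((d : ℝ) / k - j)) < n →
        -(al * ((d : ℝ) / k - j)) ≤ n := by
  rcases Nat.eq_zero_or_pos k with hk | hk
  · subst hk
    obtain ⟨a0, h1, h2⟩ := exists_rat_btwn (show al < al + (M - al - be) by linarith)
    have h3 : max 0 (be - (a0 - al)) < be := max_lt hbe (by linarith)
    obtain ⟨b1, h4, h5⟩ := exists_rat_btwn h3
    obtain ⟨b2, h6, h7⟩ := exists_rat_btwn h5
    have h8 : ∃ b0 : ℚ, max 0 (be - (a0 - al)) < b0 ∧ (b0 : ℝ) < be ∧ a0 ≠ b0 := by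
      by_cases h : a0 = b1
      · refine ⟨b2, h4.trans h6, h7, ?_⟩
        rw [h]
        intro h9
        rw [h9] at h6
        exact lt_irrefl _ h6
      · exact ⟨b1, h4, h5, h⟩
    obtain ⟨b0, g1, g2, g3⟩ := h8
    have g4 := (max_lt_iff.1 g1)
    refine ⟨a0, b0, h1, by exact_mod_cast g4.1, g2, by linarith, by linarith, g3, ?_⟩
    intro j n _ h9
    rw [Nat.cast_zero, div_zero, zero_sub, mul_neg, neg_neg] at h9 ⊢
    refine le_trans ?_ h9.le
    exact mul_le_mul_of_nonneg_right h1.le (Nat.cast_nonneg j)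
  have hk' : (0 : ℝ) < k := by exact_mod_cast hk
  -- nothing new in a small interval
  have e1 : ∀ᶠ x in 𝓝 al, ∀ j ∈ Finset.range d, x * ((d : ℝ) / k - j) <
      ⌊al * ((d : ℝ) / k - j)⌋ + 1 := by
    rw [Filter.eventually_all_finset]
    intro j _
    have hc : Continuous fun x : ℝ => x * ((d : ℝ) / k - j) := by fun_prop
    exact hc.continuousAt.eventually_lt_const (Int.lt_floor_add_one _)
  rw [Metric.eventually_nhds_iff] at e1
  obtain ⟨δ, hδ, e1⟩ := e1
  obtain ⟨a0, h1, h2⟩ := exists_rat_btwn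
    (show al < al + min δ (M - al - be) by
      have : 0 < min δ (M - al - be) := lt_min hδ (by linarith)
      linarith)
  have h2a : (a0 : ℝ) < al + δ := h2.trans_le (by
    have := min_le_left δ (M - al - be)
    linarith)
  have h2b : (a0 : ℝ) < al + (M - al - be) := h2.trans_le (by
    have := min_le_right δ (M - al - be)
    linarith)
  have h3 : max 0 (be - (a0 - al)) < be := max_lt hbe (by linarith)
  obtain ⟨b1, h4, h5⟩ := exists_rat_btwn h3
  obtain ⟨b2, h6, h7⟩ := exists_rat_btwn h5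
  have h8 : ∃ b0 : ℚ, max 0 (be - (a0 - al)) < b0 ∧ (b0 : ℝ) < be ∧ a0 ≠ b0 := by
    by_cases h : a0 = b1
    · refine ⟨b2, h4.trans h6, h7, ?_⟩
      rw [h]
      intro h9
      rw [h9] at h6
      exact lt_irrefl _ h6
    · exact ⟨b1, h4, h5, h⟩
  obtain ⟨b0, g1, g2, g3⟩ := h8
  have g4 := (max_lt_iff.1 g1)
  refine ⟨a0, b0, h1, by exact_mod_cast g4.1, g2, by linarith, by linarith, g3, ?_⟩
  intro j n hj h9
  have hjd : j < d := lt_of_le_of_lt (Nat.le_mul_of_pos_left _ hk) hj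
  have h10 := e1 (show dist (a0 : ℝ) al < δ by
    rw [Real.dist_eq, abs_of_pos (by linarith)]
    linarith) j (Finset.mem_range.2 hjd)
  by_contra hcon
  rw [not_le] at hcon
  -- `-n > al τ`, so `-n ≥ ⌊al τ⌋ + 1`
  have h11 : al * ((d : ℝ) / k - j) < ((-n : ℤ) : ℝ) := by
    push_cast
    linarith
  have h12 : ⌊al * ((d : ℝ) / k - j)⌋ < -n := Int.floor_lt.2 h11
  have h13 : ((⌊al * ((d : ℝ) / k - j)⌋ : ℤ) : ℝ) + 1 ≤ ((-n : ℤ) : ℝ) := by exact_mod_cast h12
  push_cast at h13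
  linarith

/-- positive rational numbers with a common denominator -/
theorem common (a0 b0 : ℚ) (ha : 0 < a0) (hb : 0 < b0) : ∃ A B D : ℕ, 0 < A ∧ 0 < B ∧ 0 < D ∧
    (a0 : ℝ) = A / D ∧ (b0 : ℝ) = B / D := by
  have ha1 : 0 < a0.num := Rat.num_pos.2 ha
  have hb1 : 0 < b0.num := Rat.num_pos.2 hb
  obtain ⟨x, hx⟩ := Int.eq_ofNat_of_zero_le ha1.le
  obtain ⟨y, hy⟩ := Int.eq_ofNat_of_zero_le hb1.le
  have hx0 : 0 < x := by
    rw [hx] at ha1
    exact_mod_cast ha1
  have hy0 : 0 < y := by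
    rw [hy] at hb1
    exact_mod_cast hb1
  have e1 : (a0 : ℝ) = x / a0.den := by
    have := Rat.num_div_den a0
    rw [hx] at this
    conv_lhs => rw [← this]
    push_cast
    rfl
  have e2 : (b0 : ℝ) = y / b0.den := by
    have := Rat.num_div_den b0
    rw [hy] at this
    conv_lhs => rw [← this]
    push_cast
    rfl
  have hd1 : (0 : ℝ) < a0.den := by exact_mod_cast a0.den_pos
  have hd2 : (0 : ℝ) < b0.den := by exact_mod_cast b0.den_pos
  refine ⟨x * b0.den, y * a0.den, a0.den * b0.den, Nat.mul_pos hx0 b0.den_pos,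
    Nat.mul_pos hy0 a0.den_pos, Nat.mul_pos a0.den_pos b0.den_pos, ?_, ?_⟩
  · rw [e1]
    push_cast
    field_simp
  · rw [e2]
    push_cast
    field_simp

/-- from the integral wedge to the half closed wedge -/
theorem inW_sub {k d a b T : ℕ} {al be : ℝ} (hk : 1 ≤ k) (ha : 0 < a) (hb : 0 < b)
    (hbe : (T : ℝ) / a ≤ be) (h : ∀ (j : ℕ) (n : ℤ), k * j < d →
      -((T : ℝ) / b * ((d : ℝ) / k - j)) < n → -(al * ((d : ℝ) / k - j)) ≤ n)
    {j : ℕ} {n : ℤ} (hn : InW k d a b T j n) : InWc k d al be j n := by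
  have hk' : (0 : ℝ) < k := by exact_mod_cast hk
  have ha' : (0 : ℝ) < a := by exact_mod_cast ha
  have hb' : (0 : ℝ) < b := by exact_mod_cast hb
  rcases hn with ⟨h6, h7, h8⟩ | h6
  · left
    have h6' : (k : ℝ) * j < d := by exact_mod_cast h6
    have h7' : (k : ℝ) * a * n < T * ((d : ℝ) - k * j) := by exact_mod_cast h7
    have h8' : -((k : ℝ) * b * n) < T * ((d : ℝ) - k * j) := by exact_mod_cast h8
    refine ⟨h6, ?_, h j n h6 ?_⟩
    · have e1 : (T : ℝ) / a * ((d : ℝ) / k - j) = T * ((d : ℝ) - k * j) / (k * a) := by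
        field_simp
      have h9 : (n : ℝ) < (T : ℝ) / a * ((d : ℝ) / k - j) := by
        rw [e1, lt_div_iff₀ (by positivity)]
        linarith
      refine h9.trans_le (mul_le_mul_of_nonneg_right hbe ?_)
      rw [sub_nonneg, le_div_iff₀ hk']
      linarith
    · have e1 : (T : ℝ) / b * ((d : ℝ) / k - j) = T * ((d : ℝ) - k * j) / (k * b) := by
        field_simp
      have h9 : -(n : ℝ) < (T : ℝ) / b * ((d : ℝ) / k - j) := by
        rw [e1, lt_div_iff₀ (by positivity)]
        linarith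
      linarith
  · right
    exact h6

end Pool.Agent.Helper35.T1.WED
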